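import Pool.Agent.H912.DY.P8
import Pool.Agent.H912.DY.H6

/-!
# The degrees of the periodic points of 100% of the Hénon maps

We consider the generalized Hénon maps `h(x, y) = (y, F(y) - δ x)` of degree `d ≥ 2` over a number
field `K`. The degree of a point `P` is `[K(P) : K]`. For 100% of the maps:

* there are exactly `d` fixed points, all of degree `d`, and exactly `d (d - 1)` points of exact
  period two, all of degree `d (d - 1)`; the degree of every other periodic point is divisible by
  `d (d - 1)`. So the number of periodic points of degree at most `B` is equal to `0` if `B < d` and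
  to `d` if `d ≤ B < d (d - 1)`.
* Let `K[f]` be the field of all `α` in the algebraic closure of `K` with `σ^f(α) = α` for all
  automorphisms `σ` over `K`: the union of all finite Galois extensions of `K` whose group has
  exponent dividing `f`, a field of infinite degree over `K` (for `f ≥ 2`). If there is a periodic
  point in `K[f]²` then `d (d - 1) ∣ f`, and `j ∣ f` or `d - j ∣ f` for all `j = 1, ..., d - 1`; there
  is a fixed point in `K[f]²` if and only if `f` is divisible by `1, ..., d`. This holds for all `f` at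
  the same time.

The proof is the analysis of a prime `v` of `K` which is a simple pole of one coefficient `a_j` while
all other coefficients are units; for 100% of the maps there is such a prime for every `j`. Let `w` be
a prime over `v` of a field with a periodic point. Where the absolute value of the coordinates is
largest, two of the terms `a_0`, `a_j x^j`, `a_d x^d` cancel, so `w(a_j)` is divisible by `d`
(`j = 0`), or by `j` or `d - j`, in the value group. For `j = 1` the map is expanding in the region of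
the small coordinates, which contains only one periodic point, a fixed point; so `d - 1` divides all
ramification indices over `v` if the point is not a fixed point. In a Galois extension, if `w` is
tame, then the inertia group is cyclic, and we get divisibilities for the exponent. (We only use an
elementary symmetric function of the conjugates under the inertia group, and nothing about its
structure.)
-/

namespace Pool.Agent.Results.MP_0e6b5f_nt.ExactDegrees

open Polynomial NumberField Filter Topology IsDedekindDomain IsLocalRing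

/-- The map `(x, y) ↦ (y, F(y) - δ x)` of the plane over the field `L`. -/
def henon {L : Type} [Field L] (F : L[X]) (δ : L) (P : L × L) : L × L :=
  (P.2, F.eval P.2 - δ * P.1)

/-- Its periodic points, of all periods, in the plane over `L`. -/
def periodic {L : Type} [Field L] (F : L[X]) (δ : L) : Set (L × L) :=
  {P | ∃ n : ℕ, 0 < n ∧ (henon F δ)^[n] P = P}

/-- The field `K[f]`: all `α` in the algebraic closure of `K` which are fixed by the `f`-th powers of
all automorphisms over `K`. -/
def expClosure (K : Type) [Field K] (f : ℕ) : IntermediateField K (AlgebraicClosure K) where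
  carrier := {α | ∀ σ : AlgebraicClosure K ≃ₐ[K] AlgebraicClosure K, (σ ^ f) α = α}
  mul_mem' {a b} ha hb σ := by rw [map_mul, ha σ, hb σ]
  add_mem' {a b} ha hb σ := by rw [map_add, ha σ, hb σ]
  algebraMap_mem' a σ := AlgEquiv.commutes _ a
  inv_mem' a ha σ := by rw [map_inv₀, ha σ]

/-- The periodic points of `(x, y) ↦ (y, F(y) - δ x)` in the plane over the infinite field `K[f]`. -/
def periodicExp {K : Type} [Field K] (F : K[X]) (δ : K) (f : ℕ) :
    Set (expClosure K f × expClosure K f) :=
  periodic (F.map (algebraMap K (expClosure K f))) (algebraMap K (expClosure K f) δ)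

/-- The coefficient number `i`, a quotient of two integers of `K`. -/
noncomputable def coef {K : Type} [Field K] {d : ℕ} (c : Fin (d + 2) × Fin 2 → 𝓞 K)
    (i : Fin (d + 2)) : K :=
  algebraMap (𝓞 K) K (c (i, 0)) / algebraMap (𝓞 K) K (c (i, 1))

/-- The polynomial `F = a_0 + a_1 y + ... + a_d y^d`, where `a_i` is the coefficient number `i`. -/
noncomputable def poly {K : Type} [Field K] {d : ℕ} (c : Fin (d + 2) × Fin 2 → 𝓞 K) : K[X] :=
  ∑ i : Fin (d + 1), C (coef c i.castSucc) * X ^ (i : ℕ)

/-- The number `δ`: the last coefficient. -/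
noncomputable def delta {K : Type} [Field K] {d : ℕ} (c : Fin (d + 2) × Fin 2 → 𝓞 K) : K :=
  coef c (Fin.last (d + 1))

/-- The denominators are not zero, `a_d ≠ 0` and `δ ≠ 0`: the data define a generalized Hénon map
of degree `d` over `K`. -/
def IsHenon {K : Type} [Field K] {d : ℕ} (c : Fin (d + 2) × Fin 2 → 𝓞 K) : Prop :=
  (∀ i, c (i, 1) ≠ 0) ∧ coef c (Fin.last d).castSucc ≠ 0 ∧ delta c ≠ 0

/-- All numerators and denominators have coordinates at most `X` in absolute value with respect to
the integral basis `ω`. -/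
def box {K : Type} [Field K] {J : Type} (ω : Module.Basis J ℤ (𝓞 K)) (d X : ℕ) :
    Set (Fin (d + 2) × Fin 2 → 𝓞 K) :=
  {c | ∀ k j, |ω.repr (c k) j| ≤ (X : ℤ)}

/-- The degree `[K(P) : K]` of a point of the plane over the algebraic closure of `K`. -/
noncomputable def degree (K : Type) [Field K] (P : AlgebraicClosure K × AlgebraicClosure K) : ℕ :=
  Module.finrank K (IntermediateField.adjoin K {P.1, P.2})

/-- The map `(x, y) ↦ (y, F(y) - δ x)` of the plane over the algebraic closure of `K`. -/
noncomputable def hbar {K : Type} [Field K] (F : K[X]) (δ : K) :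
    AlgebraicClosure K × AlgebraicClosure K → AlgebraicClosure K × AlgebraicClosure K :=
  henon (F.map (algebraMap K (AlgebraicClosure K))) (algebraMap K (AlgebraicClosure K) δ)

/-- Its periodic points, of all periods, over the algebraic closure. -/
def Per {K : Type} [Field K] (F : K[X]) (δ : K) :
    Set (AlgebraicClosure K × AlgebraicClosure K) :=
  periodic (F.map (algebraMap K (AlgebraicClosure K))) (algebraMap K (AlgebraicClosure K) δ)

/-- The properties of the periodic points of 100% of the Hénon maps of degree `d` over `K`. -/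
structure Typical {K : Type} [Field K] (d : ℕ) (F : K[X]) (δ : K) : Prop where
  /-- There are exactly `d` fixed points. -/
  card_fixed : {P | hbar F δ P = P}.ncard = d
  /-- The fixed points have degree `d`. -/
  degree_fixed : ∀ P, hbar F δ P = P → degree K P = d
  /-- There are exactly `d (d - 1)` points of exact period two. -/
  card_two : {P | (hbar F δ)^[2] P = P ∧ hbar F δ P ≠ P}.ncard = d * (d - 1)
  /-- The points of exact period two have degree `d (d - 1)`. -/
  degree_two : ∀ P, (hbar F δ)^[2] P = P → hbar F δ P ≠ P → degree K P = d * (d - 1)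
  /-- The degrees of the periodic points which are not fixed points are divisible by `d (d - 1)`. -/
  degree_dvd : ∀ P ∈ Per F δ, hbar F δ P ≠ P → d * (d - 1) ∣ degree K P
  /-- There are no periodic points of degree less than `d`. -/
  card_small : ∀ B : ℕ, B < d → {P | P ∈ Per F δ ∧ degree K P ≤ B} = ∅
  /-- There are exactly `d` periodic points of degree less than `d (d - 1)`, the fixed points. -/
  card_medium : ∀ B : ℕ, d ≤ B → B < d * (d - 1) →
    {P | P ∈ Per F δ ∧ degree K P ≤ B} = {P | hbar F δ P = P} ∧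
      {P | P ∈ Per F δ ∧ degree K P ≤ B}.ncard = d
  /-- Periodic points over the infinite field `K[f]`. -/
  exponent : ∀ f : ℕ, (periodicExp F δ f).Nonempty →
    d * (d - 1) ∣ f ∧ ∀ j, 0 < j → j < d → j ∣ f ∨ d - j ∣ f
  /-- Fixed points over the infinite field `K[f]`. -/
  exponent_fixed : ∀ f : ℕ, (∃ P : expClosure K f × expClosure K f,
    henon (F.map (algebraMap K (expClosure K f))) (algebraMap K (expClosure K f) δ) P = P) ↔
      ∀ j, 1 ≤ j → j ≤ d → j ∣ f

lemma coeff_poly {K : Type} [Field K] {d : ℕ} (c : Fin (d + 2) × Fin 2 → 𝓞 K) (j : Fin (d + 1)) :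
    (poly c).coeff j = coef c j.castSucc := by
  unfold poly
  rw [finsetSum_coeff]
  simp only [coeff_C_mul, coeff_X_pow]
  rw [Finset.sum_eq_single j]
  · rw [if_pos rfl, mul_one]
  · intro i _ hij
    rw [if_neg (fun h => hij (Fin.ext h.symm)), mul_zero]
  · exact fun h => absurd (Finset.mem_univ _) h

lemma coeff_poly_of_lt {K : Type} [Field K] {d : ℕ} (c : Fin (d + 2) × Fin 2 → 𝓞 K) {j : ℕ}
    (hj : d < j) : (poly c).coeff j = 0 := by
  unfold poly
  rw [finsetSum_coeff]
  refine Finset.sum_eq_zero fun i _ => ?_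
  rw [coeff_C_mul, coeff_X_pow, if_neg, mul_zero]
  intro h
  have := i.2
  omega

/-- the periodic points over `K[f]` as points over the algebraic closure -/
lemma mem_perExp {K : Type} [Field K] (F : K[X]) (δ : K) (f : ℕ)
    {P : expClosure K f × expClosure K f} (hP : P ∈ periodicExp F δ f) :
    ((P.1 : AlgebraicClosure K), (P.2 : AlgebraicClosure K)) ∈
      Pool.Agent.H912.DY.perExp F δ f := by
  obtain ⟨n, hn, hPn⟩ := hP
  refine ⟨⟨n, hn, ?_⟩, P.1.2, P.2.2⟩
  have h1 := congrArg (Prod.map (algebraMap (expClosure K f) (AlgebraicClosure K))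
    (algebraMap (expClosure K f) (AlgebraicClosure K))) hPn
  have h2 := Pool.Agent.H912.DY.henon_iterate (algebraMap (expClosure K f) (AlgebraicClosure K))
    (F.map (algebraMap K (expClosure K f))) (algebraMap K (expClosure K f) δ) n P
  have h3 : (F.map (algebraMap K (expClosure K f))).map
      (algebraMap (expClosure K f) (AlgebraicClosure K)) =
      F.map (algebraMap K (AlgebraicClosure K)) := by
    rw [Polynomial.map_map]
    rfl
  rw [h3] at h2
  exact h2.symm.trans h1

/-- the valuations of the coefficients at a prime where all data but one are units -/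
lemma val_coef {K : Type} [Field K] [NumberField K] {d : ℕ} {c : Fin (d + 2) × Fin 2 → 𝓞 K}
    {v : HeightOneSpectrum (𝓞 K)} {i : Fin (d + 2)}
    (h : ∀ l, c (i, l) ∉ v.asIdeal) : v.valuation K (coef c i) = 1 := by
  unfold coef
  rw [map_div₀, Pool.Agent.H912.DY.val_unit v (h 0), Pool.Agent.H912.DY.val_unit v (h 1), div_one]

lemma natDegree_poly {K : Type} [Field K] {d : ℕ} {c : Fin (d + 2) × Fin 2 → 𝓞 K}
    (h : coef c (Fin.last d).castSucc ≠ 0) : (poly c).natDegree = d := by
  refine le_antisymm ?_ ?_
  · rw [natDegree_le_iff_coeff_eq_zero]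
    exact fun j hj => coeff_poly_of_lt c hj
  · refine le_natDegree_of_ne_zero ?_
    have := coeff_poly c (Fin.last d)
    rw [Fin.val_last] at this
    rw [this]
    exact h

/-- a simple pole of the coefficient number `j` -/
lemma of_pole {K : Type} [Field K] [NumberField K] {d : ℕ}
    {c : Fin (d + 2) × Fin 2 → 𝓞 K} {v : HeightOneSpectrum (𝓞 K)} {j : ℕ} (hj : j < d)
    (h : Pool.Agent.H912.DY.SimplePole ((⟨j, by omega⟩ : Fin (d + 2)), (1 : Fin 2)) c v) :
    IsHenon c ∧ Pool.Agent.H912.DY.Pole v (poly c) (delta c) d j := by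
  obtain ⟨h1, h2, h3⟩ := h
  have hpole : v.valuation K (algebraMap (𝓞 K) K (c (⟨j, by omega⟩, 1))) =
      WithZero.exp (-1 : ℤ) := Pool.Agent.H912.DY.val_simple v h1 h2
  have hj' : v.valuation K (coef c ⟨j, by omega⟩) = WithZero.exp 1 := by
    unfold coef
    rw [map_div₀, hpole, Pool.Agent.H912.DY.val_unit v (h3 (⟨j, by omega⟩, 0) (by simp)),
      WithZero.exp_neg, one_div, inv_inv]
  have hi : ∀ i : Fin (d + 2), (i : ℕ) ≠ j → v.valuation K (coef c i) = 1 := by
    intro i hi
    exact val_coef fun l => h3 (i, l) (fun h => hi (congrArg Fin.val (Prod.ext_iff.1 h).1))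
  have hne : ∀ i : Fin (d + 2), (i : ℕ) ≠ j → coef c i ≠ 0 := by
    intro i hi' h
    have := hi i hi'
    rw [h, map_zero] at this
    exact zero_ne_one this
  have hdj : ((Fin.last d).castSucc : Fin (d + 2)).val ≠ j := by
    simp
    omega
  have hlj : (Fin.last (d + 1)).val ≠ j := by
    simp
    omega
  have hdeg : (poly c).natDegree = d := natDegree_poly (hne _ hdj)
  refine ⟨⟨fun i => ?_, hne _ hdj, hne _ hlj⟩, hdeg, ?_, ?_, hi _ hlj⟩
  · by_cases hij : i = ⟨j, by omega⟩
    · subst hij
      intro h
      apply h2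
      rw [h]
      exact Ideal.zero_mem _
    · intro h
      apply h3 (i, 1) (fun h' => hij (Prod.ext_iff.1 h').1)
      rw [h]
      exact Ideal.zero_mem _
  · have := coeff_poly c ⟨j, by omega⟩
    simp only at this
    rw [this]
    exact hj'
  · intro i hi' hid
    have := coeff_poly c ⟨i, by omega⟩
    simp only at this
    rw [this]
    exact hi _ hi'

/-- a simple pole of `δ` -/
lemma delta_ne {K : Type} [Field K] [NumberField K] {d : ℕ}
    {c : Fin (d + 2) × Fin 2 → 𝓞 K} {v : HeightOneSpectrum (𝓞 K)}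
    (h : Pool.Agent.H912.DY.SimplePole (Fin.last (d + 1), (1 : Fin 2)) c v) :
    1 + delta c ≠ 0 := by
  obtain ⟨h1, h2, h3⟩ := h
  have hpole : v.valuation K (algebraMap (𝓞 K) K (c (Fin.last (d + 1), 1))) =
      WithZero.exp (-1 : ℤ) := Pool.Agent.H912.DY.val_simple v h1 h2
  have hδ : v.valuation K (delta c) = WithZero.exp 1 := by
    unfold delta coef
    rw [map_div₀, hpole, Pool.Agent.H912.DY.val_unit v (h3 (Fin.last (d + 1), 0) (by simp)),
      WithZero.exp_neg, one_div, inv_inv]
  intro h
  have h4 : delta c = -1 := by linear_combination h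
  rw [h4, Valuation.map_neg, map_one, ← WithZero.exp_zero, WithZero.exp_inj] at hδ
  norm_num at hδ

/-- the properties follow from the existence of simple poles -/
theorem typical_of_poles {K : Type} [Field K] [NumberField K] {d : ℕ} (hd : 2 ≤ d) {F : K[X]}
    {δ : K} (hδ : 1 + δ ≠ 0) (h : ∀ j, j < d → ∃ (v : HeightOneSpectrum (𝓞 K)) (p : ℕ), p.Prime ∧
      d < p ∧ v.valuation K (p : K) < 1 ∧ Pool.Agent.H912.DY.Pole v F δ d j) : Typical d F δ := by
  obtain ⟨v₀, p₀, hp₀, hd₀, hv₀, hP₀⟩ := h 0 (by omega)
  obtain ⟨v₁, p₁, hp₁, hd₁, hv₁, hP₁⟩ := h 1 (by omega)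
  have hcop : Nat.Coprime d (d - 1) := by
    obtain ⟨e, rfl⟩ : ∃ e, d = e + 1 := ⟨d - 1, by omega⟩
    rw [Nat.add_sub_cancel]
    simp
  -- all degrees are divisible by `d`
  have hA : ∀ P ∈ Per F δ, d ∣ degree K P := by
    rintro P ⟨n, hn, hP⟩
    exact Pool.Agent.H912.DY.henon_dvd' v₀ hd hP₀.deg hP₀.pole hP₀.le
      (hP₀.unit d (by omega) le_rfl) hP₀.delta.le hn hP
  have hB : ∀ P ∈ Per F δ, hbar F δ P ≠ P → d * (d - 1) ∣ degree K P := by
    intro P hP hfix
    refine Nat.Coprime.mul_dvd_of_dvd_of_dvd hcop (hA P hP) ?_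
    obtain ⟨n, hn, hPn⟩ := hP
    exact Pool.Agent.H912.DY.nonfixed_dvd v₁ hd hP₁ hn hPn hfix
  have hper1 : ∀ P, hbar F δ P = P → P ∈ Per F δ := fun P hP => ⟨1, one_pos, hP⟩
  have hper2 : ∀ P, (hbar F δ)^[2] P = P → P ∈ Per F δ := fun P hP => ⟨2, two_pos, hP⟩
  obtain ⟨hirr, hfc, hfd⟩ := Pool.Agent.H912.DY.fixed_points hd hP₀.deg (δ := δ)
    (fun P hP => hA P (hper1 P hP))
  obtain ⟨htc, htd⟩ := Pool.Agent.H912.DY.two_points hd hP₀.deg hδ hirr
    (fun P hP hfix => hB P (hper2 P hP) hfix)
  have hpos : ∀ P : AlgebraicClosure K × AlgebraicClosure K, 0 < degree K P := by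
    intro P
    have hfd : FiniteDimensional K (IntermediateField.adjoin K {P.1, P.2}) := by
      refine IntermediateField.finiteDimensional_adjoin fun y _ => ?_
      exact Algebra.IsIntegral.isIntegral y
    exact Module.finrank_pos
  have hmed : ∀ B : ℕ, d ≤ B → B < d * (d - 1) →
      {P | P ∈ Per F δ ∧ degree K P ≤ B} = {P | hbar F δ P = P} := by
    intro B hB1 hB2
    ext P
    constructor
    · rintro ⟨h1, h2⟩
      by_contra hfix
      have h3 := Nat.le_of_dvd (hpos P) (hB P h1 hfix)
      omega
    · intro hP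
      have hP' : hbar F δ P = P := hP
      refine ⟨hper1 P hP', ?_⟩
      have h1 : degree K P = d := hfd P hP'
      rw [h1]
      exact hB1
  refine ⟨hfc, hfd, htc, htd, hB, ?_, fun B hB1 hB2 => ⟨hmed B hB1 hB2, ?_⟩, ?_, ?_⟩
  · intro B hBd
    ext P
    constructor
    · rintro ⟨h1, h2⟩
      have h3 := Nat.le_of_dvd (hpos P) (hA P h1)
      omega
    · exact fun h => absurd h (Set.notMem_empty P)
  · rw [hmed B hB1 hB2]
    exact hfc
  · rintro f ⟨P, hP⟩
    have hP' := mem_perExp F δ f hP
    have hfixed : ∀ j, 0 < j → j < d → hbar F δ ((P.1 : AlgebraicClosure K),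
        (P.2 : AlgebraicClosure K)) = ((P.1 : AlgebraicClosure K), (P.2 : AlgebraicClosure K)) →
        j ∣ f ∧ d - j ∣ f := by
      intro j hj0 hjd hfix
      obtain ⟨v, p, hp, hdp, hv, hPj⟩ := h j hjd
      exact Pool.Agent.H912.DY.fixed_exponent v hp hv hdp hj0 hjd hPj hirr hP' hfix
    refine ⟨Nat.Coprime.mul_dvd_of_dvd_of_dvd hcop ?_ ?_, fun j hj0 hjd => ?_⟩
    · exact Pool.Agent.H912.DY.henon_exponent v₀ hp₀ hv₀
        (fun h => absurd (Nat.le_of_dvd (by omega) h) (by omega)) hd hP₀.deg hP₀.pole hP₀.le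
        (hP₀.unit d (by omega) le_rfl) hP₀.delta.le hP'
    · by_cases hfix : hbar F δ ((P.1 : AlgebraicClosure K), (P.2 : AlgebraicClosure K)) =
          ((P.1 : AlgebraicClosure K), (P.2 : AlgebraicClosure K))
      · exact (hfixed 1 one_pos (by omega) hfix).2
      · exact Pool.Agent.H912.DY.nonfixed_exponent v₁ hp₁ hv₁ hd₁ hd hP₁ hP' hfix
    · obtain ⟨v, p, hp, hdp, hv, hPj⟩ := h j hjd
      exact Pool.Agent.H912.DY.henon_exponent2 v hp hv hdp hj0 hjd hPj.deg
        (hPj.unit 0 (by omega) (by omega)) hPj.pole hPj.le (hPj.unit d (by omega) le_rfl)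
        hPj.delta.le hP'
  · intro f
    constructor
    · rintro ⟨P, hP⟩
      have hPer : P ∈ periodicExp F δ f := ⟨1, one_pos, hP⟩
      have hP' := mem_perExp F δ f hPer
      have hfix : hbar F δ ((P.1 : AlgebraicClosure K), (P.2 : AlgebraicClosure K)) =
          ((P.1 : AlgebraicClosure K), (P.2 : AlgebraicClosure K)) := by
        have h1 := congrArg (Prod.map (algebraMap (expClosure K f) (AlgebraicClosure K))
          (algebraMap (expClosure K f) (AlgebraicClosure K))) hP
        have h2 := Pool.Agent.H912.DY.henon_comm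
          (algebraMap (expClosure K f) (AlgebraicClosure K))
          (F.map (algebraMap K (expClosure K f))) (algebraMap K (expClosure K f) δ) P
        have h3 : (F.map (algebraMap K (expClosure K f))).map
            (algebraMap (expClosure K f) (AlgebraicClosure K)) =
            F.map (algebraMap K (AlgebraicClosure K)) := by
          rw [Polynomial.map_map]
          rfl
        rw [h3] at h2
        exact h2.symm.trans h1
      intro j hj1 hjd
      rcases eq_or_lt_of_le hjd with rfl | hlt
      · exact Pool.Agent.H912.DY.henon_exponent v₀ hp₀ hv₀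
          (fun h => absurd (Nat.le_of_dvd (by omega) h) (by omega)) hd hP₀.deg hP₀.pole hP₀.le
          (hP₀.unit j (by omega) le_rfl) hP₀.delta.le hP'
      · obtain ⟨v, p, hp, hdp, hv, hPj⟩ := h j hlt
        exact (Pool.Agent.H912.DY.fixed_exponent v hp hv hdp hj1 hlt hPj hirr hP' hfix).1
    · intro hf
      obtain ⟨x, hx⟩ := IsAlgClosed.exists_aeval_eq_zero (AlgebraicClosure K)
        (Pool.Agent.H912.DY.fixP F δ) (by
          rw [degree_eq_natDegree hirr.ne_zero, Pool.Agent.H912.DY.fixP_natDegree hd hP₀.deg]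
          exact_mod_cast (by omega : d ≠ 0))
      have hmem : x ∈ expClosure K f := by
        have h1 := Pool.Agent.H912.AE.mem_expField_mul (K := K) (f := 1) (g := f) (d := d) hf (α := x)
          (P := (Pool.Agent.H912.DY.fixP F δ).map (algebraMap K (Pool.Agent.H912.AE.expField K 1)))
          ((Polynomial.map_ne_zero_iff (algebraMap K _).injective).2 hirr.ne_zero)
          (natDegree_map_le.trans (Pool.Agent.H912.DY.fixP_natDegree hd hP₀.deg δ).le) (by
            rw [eval₂_map, ← IsScalarTower.algebraMap_eq, ← aeval_def]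
            exact hx)
        rwa [one_mul] at h1
      refine ⟨(⟨x, hmem⟩, ⟨x, hmem⟩), ?_⟩
      have h1 : (Pool.Agent.H912.DY.fixP (F.map (algebraMap K (expClosure K f)))
          (algebraMap K (expClosure K f) δ)).eval (⟨x, hmem⟩ : expClosure K f) = 0 := by
        apply (algebraMap (expClosure K f) (AlgebraicClosure K)).injective
        rw [← Pool.Agent.H912.DY.fixP_map, eval_map_algebraMap, map_zero,
          ← aeval_algebraMap_apply]
        exact hx
      exact (Pool.Agent.H912.DY.fix_iff _ _ _).2 ⟨rfl, h1⟩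

/-- **The periodic points of 100% of the Hénon maps.** Let `K` be a number field with integral basis
`ω` and `d ≥ 2`. 100% of the data `c` (in the boxes given by `ω`) define a generalized Hénon map of
degree `d` over `K` with the following properties (see `Typical`): there are exactly `d` fixed points,
all of degree `d` over `K`, and exactly `d (d - 1)` points of exact period two, all of degree
`d (d - 1)`; the degrees of all other periodic points are divisible by `d (d - 1)`; so the number of
periodic points of degree at most `B` is `0` if `B < d`, and `d` if `d ≤ B < d (d - 1)`; if there is a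
periodic point over the infinite field `K[f]`, then `d (d - 1) ∣ f`, and `j ∣ f` or `d - j ∣ f` for all
`0 < j < d`; there is a fixed point over `K[f]` if and only if `1, ..., d` divide `f`. -/
theorem result {K : Type} [Field K] [NumberField K] {J : Type} [Fintype J]
    (ω : Module.Basis J ℤ (𝓞 K)) (d : ℕ) (hd : 2 ≤ d) :
    Tendsto (fun X : ℕ => ({c | c ∈ box ω d X ∧ IsHenon c ∧
      Typical d (poly c) (delta c)}.ncard : ℝ) / ((box ω d X).ncard : ℝ)) atTop (𝓝 1) := by
  refine Pool.Agent.H912.DY.tendsto_one (ι := Fin (d + 2) × Fin 2) ω (T := {c | IsHenon c ∧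
      Typical d (poly c) (delta c)}) ?_
  intro ε hε
  have hX : ∀ k : Fin (d + 2), ∃ X₀ : ℕ, ∀ X : ℕ, X₀ ≤ X →
      ({a | a ∈ Pool.Agent.H912.DY.box ω (Fin (d + 2) × Fin 2) X ∧
        ¬ ∃ (v : HeightOneSpectrum (𝓞 K)) (p : ℕ), p.Prime ∧ d + 1 ≤ p ∧
        v.valuation K (p : K) < 1 ∧ Pool.Agent.H912.DY.SimplePole
          (k, (1 : Fin 2)) a v}.ncard : ℝ) ≤
        (ε / (d + 2)) * (Pool.Agent.H912.DY.box ω (Fin (d + 2) × Fin 2) X).ncard := fun k =>
    Pool.Agent.H912.DY.sieve_pole' (ι := Fin (d + 2) × Fin 2) ω _ (d + 1) (by positivity)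
  choose X₀ hX₀ using hX
  refine ⟨Finset.univ.sup X₀, fun X hXX => ?_⟩
  have hle : ∀ k : Fin (d + 2), X₀ k ≤ X := fun k =>
    (Finset.le_sup (Finset.mem_univ k)).trans hXX
  have hsub : {c | c ∈ Pool.Agent.H912.DY.box ω (Fin (d + 2) × Fin 2) X ∧ c ∉ {c | IsHenon c ∧
      Typical d (poly c) (delta c)}} ⊆
      ⋃ k : Fin (d + 2), {a | a ∈ Pool.Agent.H912.DY.box ω (Fin (d + 2) × Fin 2) X ∧
        ¬ ∃ (v : HeightOneSpectrum (𝓞 K)) (p : ℕ), p.Prime ∧ d + 1 ≤ p ∧
        v.valuation K (p : K) < 1 ∧ Pool.Agent.H912.DY.SimplePole (k, (1 : Fin 2)) a v} := by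
    rintro c ⟨hc, hc'⟩
    by_contra hcon
    rw [Set.mem_iUnion, not_exists] at hcon
    have hpole : ∀ k : Fin (d + 2), ∃ (v : HeightOneSpectrum (𝓞 K)) (p : ℕ), p.Prime ∧
        d + 1 ≤ p ∧ v.valuation K (p : K) < 1 ∧
        Pool.Agent.H912.DY.SimplePole (k, (1 : Fin 2)) c v := by
      intro k
      by_contra h
      exact hcon k ⟨hc, h⟩
    obtain ⟨vl, pl, -, -, -, hl⟩ := hpole (Fin.last (d + 1))
    obtain ⟨v0, p0, -, -, -, h0⟩ := hpole ⟨0, by omega⟩
    apply hc'
    refine ⟨(of_pole (by omega) h0).1, typical_of_poles hd (delta_ne hl) fun j hj => ?_⟩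
    obtain ⟨v, p, hp, hpd, hv, h⟩ := hpole ⟨j, by omega⟩
    exact ⟨v, p, hp, hpd, hv, (of_pole hj h).2⟩
  have h1 : ({c | c ∈ Pool.Agent.H912.DY.box ω (Fin (d + 2) × Fin 2) X ∧ c ∉ {c | IsHenon c ∧
      Typical d (poly c) (delta c)}}.ncard : ℝ) ≤
      ∑ k : Fin (d + 2), ({a | a ∈ Pool.Agent.H912.DY.box ω (Fin (d + 2) × Fin 2) X ∧
        ¬ ∃ (v : HeightOneSpectrum (𝓞 K)) (p : ℕ), p.Prime ∧ d + 1 ≤ p ∧
        v.valuation K (p : K) < 1 ∧ Pool.Agent.H912.DY.SimplePole
          (k, (1 : Fin 2)) a v}.ncard : ℝ) := by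
    have hfin : (⋃ k : Fin (d + 2), {a | a ∈ Pool.Agent.H912.DY.box ω (Fin (d + 2) × Fin 2) X ∧
        ¬ ∃ (v : HeightOneSpectrum (𝓞 K)) (p : ℕ), p.Prime ∧ d + 1 ≤ p ∧
        v.valuation K (p : K) < 1 ∧ Pool.Agent.H912.DY.SimplePole (k, (1 : Fin 2)) a v}).Finite :=
      Set.finite_iUnion fun k => (Pool.Agent.H912.DY.finite_box ω X).subset fun a ha => ha.1
    have h2 := (Set.ncard_le_ncard hsub hfin).trans (Set.ncard_iUnion_le_of_fintype _)
    exact_mod_cast h2
  refine h1.trans ((Finset.sum_le_sum fun k _ => hX₀ k X (hle k)).trans ?_)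
  rw [Finset.sum_const, Finset.card_univ, Fintype.card_fin, nsmul_eq_mul]
  push_cast
  have h2 : ((d : ℝ) + 2) * (ε / (d + 2) *
      (Pool.Agent.H912.DY.box ω (Fin (d + 2) × Fin 2) X).ncard) =
      ε * (Pool.Agent.H912.DY.box ω (Fin (d + 2) × Fin 2) X).ncard := by
    field_simp
  rw [h2]

end Pool.Agent.Results.MP_0e6b5f_nt.ExactDegrees
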