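import Mathlib

/-!
# Rational cycles of length `d² - 2d - 3` of Hénon maps of degree `d`

Q1 of `MP_0e6b5f_nt` asks for a bound for the number of the `K`-rational periodic points of a
generalized Hénon map of degree `d`.  We give maps `f(x, y) = (y, F(y) + x)` over `ℚ` with one very
long rational cycle: of exact length `(d + 1)² - 4 (d + 1)` for odd `d ≥ 5`, and one less for even
`d ≥ 6`.  The cycle runs through all but `4 (d + 1)` (resp. `4 (d + 1) + 1`) of the points of the
grid `{0, ..., d}²`.  The longest rational cycles so far were of length about `d² / 2`.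
Up to the constant factor of the linear term this cannot be improved within a grid: a cycle
of length `ℓ` of a generalized Hénon map in `{0, ..., N - 1}²` has `ℓ ≤ N² - N` (if `δ ≠ 1`, `ℓ > 1`)
and `ℓ ≤ N² - N / 2` (if `ℓ > 4`).

Construction.  Let `N = d + 1`.  The polynomial `F` interpolates the values
`-1, 1, -1, 2, -2, 2, -2, ...` at `0, 1, ..., N - 1`; only the last two values are different: they
are `-3, 1` for even `N` and `1, 1` for odd `N`.  Away from the boundary of the grid two steps of `f`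
move a point `(a, b)` by `(± 2, ± 2)`, where the signs depend only on the parities of `a` and `b`:
the point moves along one of the two diagonal directions.  The values at the boundary change the
parities, so that the orbit is reflected, and after one round trip (`lapE`, `lapO`) it comes back
with a shift by `2`.  After the last round trip it goes back to the beginning in a zigzag.  The
degree of `F` is exactly `d` since the `d`-th difference of the values is not zero.

The upper bounds hold since a row `{(x, y) : x}` of the grid all of whose points are on the cycle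
is mapped onto a column, so that `δ = -1`, `F(y) = 0` and `(y, y)` is a fixed point, or `δ = 1` and
`F(y) = N - 1`, and the rows `y` and `N - 1 - y` cannot be both of this kind, as otherwise `(y, y)`
has a period dividing `4`.
-/

set_option autoImplicit false
set_option linter.unusedSectionVars false
set_option linter.unnecessarySeqFocus false

namespace Pool.Agent.Results.MP_0e6b5f_nt.GridCycles

open Polynomial

/-- The generalized Hénon map `f(x, y) = (y, F(y) - δ x)`. -/
def henon {K : Type*} [Field K] (F : K[X]) (δ : K) (P : K × K) : K × K :=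
  (P.2, F.eval P.2 - δ * P.1)

/-- The map `(x, y) ↦ (y, x + s(y))` on the integral points. -/
def g (s : ℤ → ℤ) (P : ℤ × ℤ) : ℤ × ℤ := (P.2, P.1 + s P.2)

/-- `n` steps lead from `P` to `Q`; before the last point all second coordinates are in `[0, N)`
and the point `(2, 2)` is not met. -/
def Path (s : ℤ → ℤ) (N : ℤ) (P : ℤ × ℤ) (n : ℕ) (Q : ℤ × ℤ) : Prop :=
  (g s)^[n] P = Q ∧
    ∀ k < n, 0 ≤ ((g s)^[k] P).2 ∧ ((g s)^[k] P).2 < N ∧ (g s)^[k] P ≠ (2, 2)

variable {s : ℤ → ℤ} {N : ℤ}

lemma Path.nil (P : ℤ × ℤ) : Path s N P 0 P :=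
  ⟨rfl, fun _ hk => absurd hk (Nat.not_lt_zero _)⟩

lemma Path.cons {x y z : ℤ} {n : ℕ} {Q : ℤ × ℤ} (h : Path s N (y, z) n Q) (hz : z = x + s y)
    (h0 : 0 ≤ y) (h1 : y < N) (h2 : ¬ (x = 2 ∧ y = 2)) : Path s N (x, y) (n + 1) Q := by
  subst hz
  refine ⟨by rw [Function.iterate_succ_apply]; exact h.1, ?_⟩
  intro k hk
  cases k with
  | zero =>
    refine ⟨h0, h1, ?_⟩
    intro h
    simp only [Function.iterate_zero, id_eq, Prod.mk.injEq] at h
    exact h2 h
  | succ k => rw [Function.iterate_succ_apply]; exact h.2 k (by omega)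

lemma Path.trans {P Q R : ℤ × ℤ} {n k : ℕ} (h : Path s N P n Q) (h' : Path s N Q k R) :
    Path s N P (n + k) R := by
  refine ⟨by rw [Nat.add_comm, Function.iterate_add_apply, h.1, h'.1], ?_⟩
  intro i hi
  by_cases h1 : i < n
  · exact h.2 i h1
  · have : (g s)^[i] P = (g s)^[i - n] Q := by
      rw [← h.1, ← Function.iterate_add_apply]
      congr 1
      omega
    rw [this]
    exact h'.2 _ (by omega)

lemma Path.cast {P Q P' Q' : ℤ × ℤ} {n n' : ℕ} (h : Path s N P n Q) (hP : P = P') (hn : n = n')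
    (hQ : Q = Q') : Path s N P' n' Q' := by
  subst hP hn hQ
  exact h

/-- The values of the polynomial: `-1, 1, -1` at `0, 1, 2`, then `2` at the odd numbers up to `B`
and `-2` at the even numbers up to `T`. -/
structure Bulk (s : ℤ → ℤ) (B T : ℤ) : Prop where
  z0 : s 0 = -1
  z1 : s 1 = 1
  z2 : s 2 = -1
  odd : ∀ y, y % 2 = 1 → 3 ≤ y → y ≤ B → s y = 2
  even : ∀ y, y % 2 = 0 → 4 ≤ y → y ≤ T → s y = -2

section phases
variable {B T : ℤ} (hs : Bulk s B T) (hB : B < N) (hT : T < N)
include hs hB hT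

lemma phaseA (i : ℕ) : ∀ a b : ℤ, a % 2 = 1 → b % 2 = 1 → 1 ≤ a → a + 2 ≤ b → b + 2 * i ≤ B + 2 →
    Path s N (a, b) (2 * i) (a + 2 * i, b + 2 * i) := by
  induction i with
  | zero => intro a b _ _ _ _ _; simpa using Path.nil (s := s) (N := N) (a, b)
  | succ i ih =>
    intro a b ha hb h1 h2 h3
    push_cast at h3
    have h := ih (a + 2) (b + 2) (by omega) (by omega) (by omega) (by omega) (by omega)
    have e1 := hs.odd b hb (by omega) (by omega)
    have e2 := hs.odd (a + 2) (by omega) (by omega) (by omega)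
    have h' : Path s N (b, a + 2) (2 * i + 1) _ :=
      h.cons (by rw [e2]) (by omega) (by omega) (by omega)
    have h'' : Path s N (a, b) (2 * i + 1 + 1) _ :=
      h'.cons (by rw [e1]) (by omega) (by omega) (by omega)
    refine h''.cast rfl (by ring) ?_
    ext <;> push_cast <;> ring

lemma phaseB (i : ℕ) : ∀ a b : ℤ, a % 2 = 1 → b % 2 = 0 → a ≤ B + 2 → 3 ≤ a - 2 * i → 4 ≤ b →
    b + 2 * i ≤ T + 2 → Path s N (a, b) (2 * i) (a - 2 * i, b + 2 * i) := by
  induction i with
  | zero => intro a b _ _ _ _ _ _; simpa using Path.nil (s := s) (N := N) (a, b)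
  | succ i ih =>
    intro a b ha hb h1 h2 h3 h4
    push_cast at h2 h4
    have h := ih (a - 2) (b + 2) (by omega) (by omega) (by omega) (by omega) (by omega) (by omega)
    have e1 := hs.even b hb (by omega) (by omega)
    have e2 := hs.odd (a - 2) (by omega) (by omega) (by omega)
    have h' : Path s N (b, a - 2) (2 * i + 1) _ :=
      h.cons (by rw [e2]) (by omega) (by omega) (by omega)
    have h'' : Path s N (a, b) (2 * i + 1 + 1) _ :=
      h'.cons (by rw [e1]; ring) (by omega) (by omega) (by omega)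
    refine h''.cast rfl (by ring) ?_
    ext <;> push_cast <;> ring

lemma phaseC (i : ℕ) : ∀ a b : ℤ, a % 2 = 0 → b % 2 = 0 → a - 2 ≤ T → b + 2 ≤ a → 2 ≤ b - 2 * i →
    Path s N (a, b) (2 * i) (a - 2 * i, b - 2 * i) := by
  induction i with
  | zero => intro a b _ _ _ _ _; simpa using Path.nil (s := s) (N := N) (a, b)
  | succ i ih =>
    intro a b ha hb h1 h2 h3
    push_cast at h3
    have h := ih (a - 2) (b - 2) (by omega) (by omega) (by omega) (by omega) (by omega)
    have e1 := hs.even b hb (by omega) (by omega)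
    have e2 := hs.even (a - 2) (by omega) (by omega) (by omega)
    have h' : Path s N (b, a - 2) (2 * i + 1) _ :=
      h.cons (by rw [e2]; ring) (by omega) (by omega) (by omega)
    have h'' : Path s N (a, b) (2 * i + 1 + 1) _ :=
      h'.cons (by rw [e1]; ring) (by omega) (by omega) (by omega)
    refine h''.cast rfl (by ring) ?_
    ext <;> push_cast <;> ring

lemma phaseD (i : ℕ) : ∀ a b : ℤ, a % 2 = 0 → b % 2 = 1 → 2 ≤ a → a + 2 * i ≤ T → b ≤ B →
    1 ≤ b - 2 * i → Path s N (a, b) (2 * i) (a + 2 * i, b - 2 * i) := by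
  induction i with
  | zero => intro a b _ _ _ _ _ _; simpa using Path.nil (s := s) (N := N) (a, b)
  | succ i ih =>
    intro a b ha hb h1 h2 h3 h4
    push_cast at h2 h4
    have h := ih (a + 2) (b - 2) (by omega) (by omega) (by omega) (by omega) (by omega) (by omega)
    have e1 := hs.odd b hb (by omega) (by omega)
    have e2 := hs.even (a + 2) (by omega) (by omega) (by omega)
    have h' : Path s N (b, a + 2) (2 * i + 1) _ :=
      h.cons (by rw [e2]; ring) (by omega) (by omega) (by omega)
    have h'' : Path s N (a, b) (2 * i + 1 + 1) _ :=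
      h'.cons (by rw [e1]) (by omega) (by omega) (by omega)
    refine h''.cast rfl (by ring) ?_
    ext <;> push_cast <;> ring

/-- the last part: from `(0, 3 + 2 i)` to `(0, 3)` -/
lemma zigzag (i : ℕ) : 3 + 2 * (i : ℤ) ≤ B → 2 + 2 * (i : ℤ) ≤ T →
    Path s N (0, 3 + 2 * (i : ℤ)) (4 * i) (0, 3) := by
  induction i with
  | zero => intro _ _; simpa using Path.nil (s := s) (N := N) (0, 3)
  | succ i ih =>
    intro h1 h2
    push_cast at h1 h2
    have h := ih (by omega) (by omega)
    set v : ℤ := 3 + 2 * ((i + 1 : ℕ) : ℤ) with hv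
    have hv' : v = 3 + 2 * ((i : ℤ) + 1) := by rw [hv]; push_cast; ring
    have e1 := hs.odd v (by omega) (by omega) (by omega)
    have e2 := hs.even (v - 1) (by omega) (by omega) (by omega)
    have h3 : Path s N (v - 1, 0) (4 * i + 1) _ :=
      h.cons (by rw [hs.z0]; omega) (by omega) (by omega) (by omega)
    have h4 : Path s N (2, v - 1) (4 * i + 1 + 1) _ :=
      h3.cons (by rw [e2]; ring) (by omega) (by omega) (by omega)
    have h5 : Path s N (v, 2) (4 * i + 1 + 1 + 1) _ :=
      h4.cons (by rw [hs.z2]; ring) (by omega) (by omega) (by omega)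
    have h6 : Path s N (0, v) (4 * i + 1 + 1 + 1 + 1) _ :=
      h5.cons (by rw [e1]; ring) (by omega) (by omega) (by omega)
    exact h6.cast rfl (by ring) rfl

end phases

lemma Path.trans' {P Q Q' R : ℤ × ℤ} {n k : ℕ} (h : Path s N P n Q) (h' : Path s N Q' k R)
    (e1 : Q.1 = Q'.1) (e2 : Q.2 = Q'.2) : Path s N P (n + k) R := by
  have e : Q = Q' := Prod.ext e1 e2
  subst e
  exact h.trans h'

lemma Path.step {x y : ℤ} {P' Q : ℤ × ℤ} {n : ℕ} (h : Path s N P' n Q) (e1 : P'.1 = y)
    (e2 : P'.2 = x + s y) (h0 : 0 ≤ y) (h1 : y < N) (h2 : ¬ (x = 2 ∧ y = 2)) :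
    Path s N (x, y) (n + 1) Q := by
  obtain ⟨p, q⟩ := P'
  simp only at e1 e2
  subst e1
  exact h.cons e2 h0 h1 h2

/-- the common values -/
def base (y : ℤ) : ℤ :=
  if y = 0 then -1 else if y = 1 then 1 else if y = 2 then -1 else if y % 2 = 1 then 2 else -2

/-- the values for `N = 2 m` -/
def sE (m y : ℤ) : ℤ := if y = 2 * m - 1 then 1 else if y = 2 * m - 2 then -3 else base y

/-- the values for `N = 2 m + 1` -/
def sO (m y : ℤ) : ℤ := if y = 2 * m - 1 ∨ y = 2 * m then 1 else base y

lemma bulkE {m : ℤ} (hm : 3 ≤ m) : Bulk (sE m) (2 * m - 3) (2 * m - 4) where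
  z0 := by unfold sE base; split_ifs <;> omega
  z1 := by unfold sE base; split_ifs <;> omega
  z2 := by unfold sE base; split_ifs <;> omega
  odd := by intro y h1 h2 h3; unfold sE base; split_ifs <;> omega
  even := by intro y h1 h2 h3; unfold sE base; split_ifs <;> omega

lemma bulkO {m : ℤ} (hm : 3 ≤ m) : Bulk (sO m) (2 * m - 3) (2 * m - 2) where
  z0 := by unfold sO base; split_ifs <;> omega
  z1 := by unfold sO base; split_ifs <;> omega
  z2 := by unfold sO base; split_ifs <;> omega
  odd := by intro y h1 h2 h3; unfold sO base; split_ifs <;> omega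
  even := by intro y h1 h2 h3; unfold sO base; split_ifs <;> omega

lemma sE_top {m : ℤ} : sE m (2 * m - 1) = 1 := by unfold sE; simp

lemma sE_top' {m : ℤ} : sE m (2 * m - 2) = -3 := by
  unfold sE; rw [if_neg (by omega), if_pos rfl]

lemma sO_top {m : ℤ} : sO m (2 * m - 1) = 1 := by unfold sO; simp

lemma sO_top' {m : ℤ} : sO m (2 * m) = 1 := by unfold sO; simp

lemma lapE {m : ℤ} (j k : ℕ) (hm : m = j + k + 4) :
    Path (sE m) (2 * m) (1, 2 * (j : ℤ) + 3) (4 * (j + k + 3)) (1, 2 * (j : ℤ) + 5) := by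
  have hs := bulkE (m := m) (by omega)
  have hB : 2 * m - 3 < 2 * m := by omega
  have hT : 2 * m - 4 < 2 * m := by omega
  have a := phaseA hs hB hT (k + 2) 1 (2 * j + 3) (by omega) (by omega) (by omega) (by omega)
    (by push_cast; omega)
  have b := phaseB hs hB hT j (2 * m - 1) (2 * k + 6) (by omega) (by omega) (by omega) (by omega)
    (by omega) (by omega)
  have c := phaseC hs hB hT (k + 1) (2 * m - 2) (2 * k + 4) (by omega) (by omega) (by omega)
    (by omega) (by push_cast; omega)
  have d := phaseD hs hB hT (j + 1) 2 (2 * j + 3) (by omega) (by omega) (by omega)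
    (by push_cast; omega) (by omega) (by push_cast; omega)
  push_cast at a b c d
  have e : Path (sE m) (2 * m) (2 * (j : ℤ) + 4, 1) 1 (1, 2 * (j : ℤ) + 5) :=
    (Path.nil _).step rfl (by rw [hs.z1]; ring) (by omega) (by omega) (by omega)
  have d1 := d.trans' e (by push_cast; ring) (by push_cast; ring)
  have d2 : Path (sE m) (2 * m) (2 * (j : ℤ) + 4, 2) _ _ :=
    d1.step rfl (by rw [hs.z2]; push_cast; ring) (by omega) (by omega) (by omega)
  have c1 := c.trans' d2 (by push_cast; omega) (by push_cast; omega)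
  have c2 : Path (sE m) (2 * m) (2 * (k : ℤ) + 7, 2 * m - 2) _ _ :=
    c1.step rfl (by rw [sE_top']; push_cast; ring) (by omega) (by omega) (by omega)
  have b1 := b.trans' c2 (by push_cast; omega) (by push_cast; omega)
  have b2 : Path (sE m) (2 * m) (2 * (k : ℤ) + 5, 2 * m - 1) _ _ :=
    b1.step rfl (by rw [sE_top]; push_cast; ring) (by omega) (by omega) (by omega)
  have a1 := a.trans' b2 (by push_cast; omega) (by push_cast; omega)
  exact a1.cast rfl (by ring) rfl

lemma lapsE {m : ℤ} (q : ℕ) (hm : m = q + 3) (n : ℕ) (hn : n ≤ q) :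
    Path (sE m) (2 * m) (1, 3) (n * (4 * (q + 2))) (1, 2 * (n : ℤ) + 3) := by
  induction n with
  | zero => simpa using Path.nil (s := sE m) (N := 2 * m) (1, 3)
  | succ n ih =>
    obtain ⟨k, rfl⟩ : ∃ k, q = n + 1 + k := ⟨q - (n + 1), by omega⟩
    have h := ih (by omega)
    have h1 := lapE (m := m) n k (by rw [hm]; push_cast; ring)
    exact (h.trans h1).cast rfl (by ring) (by ext <;> push_cast <;> ring)

/-- the whole cycle for `N = 2 m`, `m = q + 3` -/
lemma cycleE {m : ℤ} (q : ℕ) (hm : m = q + 3) :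
    Path (sE m) (2 * m) (2, 1) (4 * q ^ 2 + 16 * q + 11) (2, 2) := by
  have hs := bulkE (m := m) (by omega)
  have hB : 2 * m - 3 < 2 * m := by omega
  have hT : 2 * m - 4 < 2 * m := by omega
  have h0 := lapsE q hm q le_rfl
  have a := phaseA hs hB hT 1 1 (2 * q + 3) (by omega) (by omega) (by omega) (by omega)
    (by push_cast; omega)
  have b := phaseB hs hB hT q (2 * m - 1) 4 (by omega) (by omega) (by omega) (by omega)
    (by omega) (by omega)
  have d := phaseD hs hB hT q 2 (2 * m - 3) (by omega) (by omega) (by omega) (by omega) (by omega)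
    (by omega)
  have z := zigzag hs hB hT q (by omega) (by omega)
  have e1 : Path (sE m) (2 * m) (3, 2) 1 (2, 2) :=
    (Path.nil _).step rfl (by rw [hs.z2]; ring) (by omega) (by omega) (by omega)
  have e2 : Path (sE m) (2 * m) (0, 3) 2 (2, 2) :=
    e1.step rfl (by rw [hs.odd 3 (by omega) (by omega) (by omega)]; ring) (by omega) (by omega)
      (by omega)
  have z1 := z.trans e2
  have z2 : Path (sE m) (2 * m) (2 * m - 2, 0) _ _ :=
    z1.step rfl (by rw [hs.z0]; omega) (by omega) (by omega) (by omega)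
  have z3 : Path (sE m) (2 * m) (3, 2 * m - 2) _ _ :=
    z2.step rfl (by rw [sE_top']; ring) (by omega) (by omega) (by omega)
  have z4 : Path (sE m) (2 * m) (2 * m - 4, 3) _ _ :=
    z3.step rfl (by rw [hs.odd 3 (by omega) (by omega) (by omega)]; ring) (by omega) (by omega)
      (by omega)
  have d1 := d.trans' z4 (by dsimp only; omega) (by dsimp only; omega)
  have d2 : Path (sE m) (2 * m) (2 * m - 2, 2) _ _ :=
    d1.step rfl (by rw [hs.z2]; dsimp only; omega) (by omega) (by omega) (by omega)
  have d3 : Path (sE m) (2 * m) (5, 2 * m - 2) _ _ :=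
    d2.step rfl (by rw [sE_top']; dsimp only; omega) (by omega) (by omega) (by omega)
  have b1 := b.trans' d3 (by dsimp only; omega) (by dsimp only; omega)
  have b2 : Path (sE m) (2 * m) (3, 2 * m - 1) _ _ :=
    b1.step rfl (by rw [sE_top]; ring) (by omega) (by omega) (by omega)
  have a1 := a.trans' b2 (by dsimp only; omega) (by push_cast; omega)
  have h1 := h0.trans a1
  have h2 : Path (sE m) (2 * m) (2, 1) _ _ :=
    h1.step rfl (by rw [hs.z1]; ring) (by omega) (by omega) (by omega)
  exact h2.cast rfl (by ring) rfl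

lemma lapO {m : ℤ} (j k : ℕ) (hm : m = j + k + 3) :
    Path (sO m) (2 * m + 1) (1, 2 * (j : ℤ) + 3) (4 * (j + k + 3)) (1, 2 * (j : ℤ) + 5) := by
  have hs := bulkO (m := m) (by omega)
  have hB : 2 * m - 3 < 2 * m + 1 := by omega
  have hT : 2 * m - 2 < 2 * m + 1 := by omega
  have a := phaseA hs hB hT (k + 1) 1 (2 * j + 3) (by omega) (by omega) (by omega) (by omega)
    (by push_cast; omega)
  have b := phaseB hs hB hT (j + 1) (2 * m - 1) (2 * k + 4) (by omega) (by omega) (by omega)
    (by push_cast; omega) (by omega) (by push_cast; omega)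
  have c := phaseC hs hB hT (k + 1) (2 * m) (2 * k + 4) (by omega) (by omega) (by omega)
    (by omega) (by push_cast; omega)
  have d := phaseD hs hB hT (j + 1) 2 (2 * j + 3) (by omega) (by omega) (by omega)
    (by push_cast; omega) (by omega) (by push_cast; omega)
  push_cast at a b c d
  have e : Path (sO m) (2 * m + 1) (2 * (j : ℤ) + 4, 1) 1 (1, 2 * (j : ℤ) + 5) :=
    (Path.nil _).step rfl (by rw [hs.z1]; ring) (by omega) (by omega) (by omega)
  have d1 := d.trans' e (by push_cast; ring) (by push_cast; ring)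
  have d2 : Path (sO m) (2 * m + 1) (2 * (j : ℤ) + 4, 2) _ _ :=
    d1.step rfl (by rw [hs.z2]; push_cast; ring) (by omega) (by omega) (by omega)
  have c1 := c.trans' d2 (by push_cast; omega) (by push_cast; omega)
  have c2 : Path (sO m) (2 * m + 1) (2 * (k : ℤ) + 3, 2 * m) _ _ :=
    c1.step rfl (by rw [sO_top']; push_cast; ring) (by omega) (by omega) (by omega)
  have b1 := b.trans' c2 (by push_cast; omega) (by push_cast; omega)
  have b2 : Path (sO m) (2 * m + 1) (2 * (k : ℤ) + 3, 2 * m - 1) _ _ :=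
    b1.step rfl (by rw [sO_top]; push_cast; ring) (by omega) (by omega) (by omega)
  have a1 := a.trans' b2 (by push_cast; omega) (by push_cast; omega)
  exact a1.cast rfl (by ring) rfl

lemma lapsO {m : ℤ} (q : ℕ) (hm : m = q + 3) (n : ℕ) (hn : n ≤ q + 1) :
    Path (sO m) (2 * m + 1) (1, 3) (n * (4 * (q + 3))) (1, 2 * (n : ℤ) + 3) := by
  induction n with
  | zero => simpa using Path.nil (s := sO m) (N := 2 * m + 1) (1, 3)
  | succ n ih =>
    obtain ⟨k, rfl⟩ : ∃ k, q = n + k := ⟨q - n, by omega⟩
    have h := ih (by omega)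
    have h1 := lapO (m := m) n k (by rw [hm]; push_cast; ring)
    exact (h.trans h1).cast rfl (by ring) (by ext <;> push_cast <;> ring)

/-- the whole cycle for `N = 2 m + 1`, `m = q + 3` -/
lemma cycleO {m : ℤ} (q : ℕ) (hm : m = q + 3) :
    Path (sO m) (2 * m + 1) (2, 1) (4 * q ^ 2 + 20 * q + 19) (2, 2) := by
  have hs := bulkO (m := m) (by omega)
  have hB : 2 * m - 3 < 2 * m + 1 := by omega
  have hT : 2 * m - 2 < 2 * m + 1 := by omega
  have h0 := lapsO q hm (q + 1) le_rfl
  have z := zigzag hs hB hT q (by omega) (by omega)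
  have e1 : Path (sO m) (2 * m + 1) (3, 2) 1 (2, 2) :=
    (Path.nil _).step rfl (by rw [hs.z2]; ring) (by omega) (by omega) (by omega)
  have e2 : Path (sO m) (2 * m + 1) (0, 3) 2 (2, 2) :=
    e1.step rfl (by rw [hs.odd 3 (by omega) (by omega) (by omega)]; ring) (by omega) (by omega)
      (by omega)
  have z1 := z.trans e2
  have z2 : Path (sO m) (2 * m + 1) (2 * m - 2, 0) _ _ :=
    z1.step rfl (by rw [hs.z0]; omega) (by omega) (by omega) (by omega)
  have z3 : Path (sO m) (2 * m + 1) (2, 2 * m - 2) _ _ :=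
    z2.step rfl (by rw [hs.even _ (by omega) (by omega) (by omega)]; ring) (by omega) (by omega)
      (by omega)
  have z4 : Path (sO m) (2 * m + 1) (2 * m - 1, 2) _ _ :=
    z3.step rfl (by rw [hs.z2]; ring) (by omega) (by omega) (by omega)
  have z5 : Path (sO m) (2 * m + 1) (1, 2 * m - 1) _ _ :=
    z4.step rfl (by rw [sO_top]; ring) (by omega) (by omega) (by omega)
  have h1 := h0.trans' z5 rfl (by push_cast; omega)
  have h2 : Path (sO m) (2 * m + 1) (2, 1) _ _ :=
    h1.step rfl (by rw [hs.z1]; ring) (by omega) (by omega) (by omega)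
  exact h2.cast rfl (by ring) rfl

/-! ### From the grid to the plane over a field -/

section transport
variable {K : Type*} [Field K] [CharZero K]

/-- an integral point as a point over `K` -/
def c (K : Type*) [Field K] (P : ℤ × ℤ) : K × K := ((P.1 : K), (P.2 : K))

lemma c_inj {P Q : ℤ × ℤ} (h : c K P = c K Q) : P = Q := by
  unfold c at h
  rw [Prod.mk.injEq] at h
  exact Prod.ext (Int.cast_injective h.1) (Int.cast_injective h.2)

lemma henon_c {F : K[X]} {P : ℤ × ℤ} (hF : F.eval (P.2 : K) = (s P.2 : K)) :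
    henon F (-1) (c K P) = c K (g s P) := by
  unfold henon c g
  rw [Prod.mk.injEq]
  refine ⟨rfl, ?_⟩
  simp only [hF]
  push_cast
  ring

lemma iterate_c {F : K[X]} (hF : ∀ y : ℤ, 0 ≤ y → y < N → F.eval (y : K) = (s y : K))
    {P Q : ℤ × ℤ} {n : ℕ} (h : Path s N P n Q) (k : ℕ) (hk : k ≤ n) :
    (henon F (-1))^[k] (c K P) = c K ((g s)^[k] P) := by
  induction k with
  | zero => rfl
  | succ k ih =>
    rw [Function.iterate_succ_apply', Function.iterate_succ_apply', ih (by omega)]
    obtain ⟨h1, h2, -⟩ := h.2 k (by omega)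
    exact henon_c (hF _ h1 h2)

lemma period_of_path {F : K[X]} (hF : ∀ y : ℤ, 0 ≤ y → y < N → F.eval (y : K) = (s y : K))
    (hN : 2 < N) (h2 : s 2 = -1) {n : ℕ} (h : Path s N (2, 1) n (2, 2)) :
    Function.minimalPeriod (henon F (-1)) (c K (2, 2)) = n + 1 ∧
      ∀ k : ℕ, ∃ a b : ℕ, (a : ℤ) < N ∧ (b : ℤ) < N ∧
        (henon F (-1))^[k] (c K (2, 2)) = ((a : K), (b : K)) := by
  set f := henon F (-1) with hf
  have e0 : f (c K (2, 2)) = c K (2, 1) := by
    rw [hf, henon_c (s := s) (hF 2 (by norm_num) hN)]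
    simp [g, h2]
  have e1 : ∀ k ≤ n, f^[k + 1] (c K (2, 2)) = c K ((g s)^[k] (2, 1)) := by
    intro k hk
    rw [Function.iterate_succ_apply, e0]
    exact iterate_c hF h k hk
  have hper : Function.IsPeriodicPt f (n + 1) (c K (2, 2)) := by
    rw [Function.IsPeriodicPt, Function.IsFixedPt, e1 n le_rfl, h.1]
  have hmin : Function.minimalPeriod f (c K (2, 2)) = n + 1 := by
    apply le_antisymm (hper.minimalPeriod_le (Nat.succ_pos n))
    by_contra hlt
    push Not at hlt
    have hpos := hper.minimalPeriod_pos (Nat.succ_pos n)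
    obtain ⟨k, hk⟩ := Nat.exists_eq_succ_of_ne_zero hpos.ne'
    have h3 : f^[k + 1] (c K (2, 2)) = c K (2, 2) := by
      have := Function.isPeriodicPt_minimalPeriod f (c K (2, 2))
      rw [hk] at this
      exact this
    rw [e1 k (by omega)] at h3
    exact (h.2 k (by omega)).2.2 (c_inj h3)
  refine ⟨hmin, ?_⟩
  -- the second coordinates
  have hsec : ∀ k : ℕ, ∃ b : ℕ, (b : ℤ) < N ∧ (f^[k] (c K (2, 2))).2 = (b : K) := by
    intro k
    have hmod : f^[k] (c K (2, 2)) = f^[k % (n + 1)] (c K (2, 2)) :=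
      (hper.iterate_mod_apply k).symm
    rw [hmod]
    have hlt : k % (n + 1) < n + 1 := Nat.mod_lt _ (Nat.succ_pos n)
    rcases Nat.eq_zero_or_pos (k % (n + 1)) with h0 | h0
    · rw [h0]
      exact ⟨2, by exact_mod_cast hN, by simp [c]⟩
    · obtain ⟨j, hj⟩ := Nat.exists_eq_succ_of_ne_zero h0.ne'
      rw [hj, Nat.succ_eq_add_one, e1 j (by omega)]
      obtain ⟨h1, h2, -⟩ := h.2 j (by omega)
      refine ⟨((g s)^[j] (2, 1)).2.toNat, by omega, ?_⟩
      have h3 : (((((g s)^[j] (2, 1)).2.toNat : ℕ) : ℤ) : K) = (((g s)^[j] (2, 1)).2 : K) := by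
        rw [Int.toNat_of_nonneg h1]
      rw [Int.cast_natCast] at h3
      rw [h3]
      rfl
  intro k
  obtain ⟨b, hb, hb'⟩ := hsec k
  obtain ⟨a, ha, ha'⟩ := hsec (k + n)
  refine ⟨a, b, ha, hb, ?_⟩
  have h1 : f^[k] (c K (2, 2)) = f (f^[k + n] (c K (2, 2))) := by
    rw [← Function.iterate_succ_apply' f, Nat.succ_eq_add_one, add_assoc,
      Function.iterate_add_apply, hper]
  refine Prod.ext ?_ hb'
  rw [h1]
  exact ha'

lemma exists_poly (d : ℕ) (hd : 2 ≤ d) (v : ℕ → ℤ) (h1 : ∀ k < d, (-1) ^ k * v k ≤ -1)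
    (h2 : (-1) ^ d * v d ≤ 1) :
    ∃ F : K[X], F.natDegree = d ∧ ∀ n ≤ d, F.eval (n : K) = (v n : K) := by
  classical
  set F : K[X] := Lagrange.interpolate (Finset.range (d + 1)) (fun n : ℕ => (n : K))
    (fun n => (v n : K)) with hF
  have hinj : Set.InjOn (fun n : ℕ => (n : K)) (Finset.range (d + 1) : Set ℕ) :=
    fun x _ y _ h => Nat.cast_injective h
  have hev : ∀ n ≤ d, F.eval (n : K) = (v n : K) := fun n hn =>
    Lagrange.eval_interpolate_at_node (fun n => (v n : K)) hinj
      (Finset.mem_range.2 (Nat.lt_succ_of_le hn))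
  refine ⟨F, ?_, hev⟩
  have hle : F.natDegree ≤ d := by
    have h := Lagrange.degree_interpolate_lt (fun n => (v n : K)) hinj
    rw [← hF, Finset.card_range] at h
    by_cases h0 : F = 0
    · rw [h0]; simp
    · have := (Polynomial.natDegree_lt_iff_degree_lt h0).2 h
      omega
  by_contra hne
  have hlt : F.natDegree < d := lt_of_le_of_ne hle hne
  have hz := congrFun (Polynomial.fwdDiff_iter_eq_zero_of_degree_lt hlt) (0 : K)
  rw [fwdDiff_iter_eq_sum_shift] at hz
  have hsum : ((∑ k ∈ Finset.range (d + 1), ((-1 : ℤ) ^ (d - k) * d.choose k) * v k : ℤ) : K)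
      = 0 := by
    rw [Int.cast_sum]
    refine Eq.trans (Finset.sum_congr rfl fun k hk => ?_) hz
    rw [zero_add, nsmul_eq_mul, mul_one, hev k (Nat.lt_succ_iff.1 (Finset.mem_range.1 hk)),
      zsmul_eq_mul]
    push_cast
    ring
  rw [Int.cast_eq_zero] at hsum
  -- multiply by `(-1) ^ d`
  have hsum2 : ∑ k ∈ Finset.range (d + 1), (d.choose k : ℤ) * ((-1) ^ k * v k) = 0 := by
    have : ∑ k ∈ Finset.range (d + 1), (d.choose k : ℤ) * ((-1) ^ k * v k) =
        (-1) ^ d * ∑ k ∈ Finset.range (d + 1), ((-1 : ℤ) ^ (d - k) * d.choose k) * v k := by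
      rw [Finset.mul_sum]
      refine Finset.sum_congr rfl fun k hk => ?_
      have hk' : k ≤ d := Nat.lt_succ_iff.1 (Finset.mem_range.1 hk)
      have e : (-1 : ℤ) ^ d * (-1) ^ (d - k) = (-1) ^ k := by
        rw [← pow_add, show d + (d - k) = k + 2 * (d - k) by omega, pow_add, pow_mul]
        simp
      rw [← e]
      ring
    rw [this, hsum, mul_zero]
  rw [Finset.sum_range_succ, Nat.choose_self] at hsum2
  have hb : ∑ k ∈ Finset.range d, (d.choose k : ℤ) * ((-1) ^ k * v k) ≤
      -∑ k ∈ Finset.range d, (d.choose k : ℤ) := by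
    rw [← Finset.sum_neg_distrib]
    refine Finset.sum_le_sum fun k hk => ?_
    have h3 := h1 k (Finset.mem_range.1 hk)
    have h4 : (0 : ℤ) ≤ (d.choose k : ℤ) := by positivity
    nlinarith
  have hc : ∑ k ∈ Finset.range d, (d.choose k : ℤ) + 1 = 2 ^ d := by
    have := Nat.sum_range_choose d
    rw [Finset.sum_range_succ, Nat.choose_self] at this
    exact_mod_cast this
  have h4 : (4 : ℤ) ≤ 2 ^ d := by
    calc (4 : ℤ) = 2 ^ 2 := by norm_num
      _ ≤ 2 ^ d := pow_le_pow_right₀ (by norm_num) hd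
  push_cast at hsum2
  linarith

end transport

/-! ### Upper bounds for the cycles in a grid -/

section upper
variable {K : Type*} [Field K] [CharZero K]
open Classical in
/-- the points of the grid which do not lie on the orbit of `P` -/
noncomputable def missing (f : K × K → K × K) (P : K × K) (N : ℕ) : Finset (ℕ × ℕ) :=
  (Finset.range N ×ˢ Finset.range N).filter
    fun ab => ¬ ∃ k : ℕ, f^[k] P = (((ab.1 : ℕ) : K), ((ab.2 : ℕ) : K))

lemma card_missing {f : K × K → K × K} {P : K × K} {N : ℕ}
    (hP : ∀ k : ℕ, ∃ a b : ℕ, a < N ∧ b < N ∧ f^[k] P = ((a : K), (b : K))) :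
    Function.minimalPeriod f P + (missing f P N).card ≤ N ^ 2 := by
  classical
  have h1 : (missing f P N).card + ((Finset.range N ×ˢ Finset.range N).filter
      fun ab : ℕ × ℕ => ∃ k : ℕ, f^[k] P = ((ab.1 : K), (ab.2 : K))).card = N ^ 2 := by
    have := Finset.card_filter_add_card_filter_not (s := Finset.range N ×ˢ Finset.range N)
      (fun ab : ℕ × ℕ => ∃ k : ℕ, f^[k] P = ((ab.1 : K), (ab.2 : K)))
    rw [Finset.card_product, Finset.card_range] at this
    unfold missing
    rw [add_comm, sq]
    convert this using 2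
  have h2 : Function.minimalPeriod f P ≤ ((Finset.range N ×ˢ Finset.range N).filter
      fun ab : ℕ × ℕ => ∃ k : ℕ, f^[k] P = ((ab.1 : K), (ab.2 : K))).card := by
    choose a b ha hb hab using hP
    have : (Finset.range (Function.minimalPeriod f P)).card = Function.minimalPeriod f P :=
      Finset.card_range _
    rw [← this]
    refine Finset.card_le_card_of_injOn (fun k => (a k, b k)) ?_ ?_
    · intro k _
      simp only [Finset.coe_filter, Finset.mem_product, Finset.mem_range, Set.mem_ofPred_eq]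
      exact ⟨⟨ha k, hb k⟩, k, hab k⟩
    · intro k hk l hl hkl
      simp only [Finset.coe_range, Set.mem_Iio] at hk hl
      simp only [Prod.mk.injEq] at hkl
      have e : f^[k] P = f^[l] P := by rw [hab k, hab l, hkl.1, hkl.2]
      exact Function.iterate_injOn_Iio_minimalPeriod hk hl e
  omega

/-- A row of the grid all of whose points lie on the orbit. -/
lemma full_row {F : K[X]} {δ : K} (hδ : δ ≠ 0) {P : K × K} {N : ℕ} (hN : 2 ≤ N)
    (hP : ∀ k : ℕ, ∃ a b : ℕ, a < N ∧ b < N ∧ (henon F δ)^[k] P = ((a : K), (b : K)))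
    {y : ℕ} (hy : ∀ x < N, ∃ k : ℕ, (henon F δ)^[k] P = ((x : K), (y : K))) :
    (δ = 1 ∧ F.eval (y : K) = ((N : K) - 1)) ∨ (δ = -1 ∧ F.eval (y : K) = 0) := by
  have key : ∀ x < N, ∃ b : ℕ, b < N ∧ F.eval (y : K) - δ * x = (b : K) := by
    intro x hx
    obtain ⟨k, hk⟩ := hy x hx
    obtain ⟨a, b, -, hb, hab⟩ := hP (k + 1)
    rw [Function.iterate_succ_apply', hk] at hab
    exact ⟨b, hb, (Prod.mk.inj hab).2⟩
  obtain ⟨b0, hb0, e0⟩ := key 0 (by omega)
  obtain ⟨b1, hb1, e1⟩ := key 1 (by omega)
  obtain ⟨b2, hb2, e2⟩ := key (N - 1) (by omega)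
  have hN1 : ((N - 1 : ℕ) : K) = (N : K) - 1 := by
    rw [Nat.cast_sub (by omega), Nat.cast_one]
  rw [hN1] at e2
  simp only [Nat.cast_zero, mul_zero, sub_zero, Nat.cast_one, mul_one] at e0 e1
  -- `δ` is the integer `b0 - b1`
  have hd : δ = (((b0 : ℤ) - b1 : ℤ) : K) := by
    push_cast
    rw [← e0, ← e1]
    ring
  have h3 : (b2 : ℤ) = b0 - (b0 - b1) * (N - 1) := by
    have : ((b2 : ℤ) : K) = (((b0 : ℤ) - (b0 - b1) * (N - 1) : ℤ) : K) := by
      push_cast
      rw [← e2, hd, ← e0, ← e1]
      push_cast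
      rw [← e0, ← e1]
    exact_mod_cast this
  set e : ℤ := (b0 : ℤ) - b1 with he
  have he0 : e ≠ 0 := by
    intro h
    rw [h, Int.cast_zero] at hd
    exact hδ hd
  have hN2 : (1 : ℤ) ≤ (N : ℤ) - 1 := by omega
  have h4 : e < 2 := by
    by_contra h
    push Not at h
    nlinarith
  have h5 : -2 < e := by
    by_contra h
    push Not at h
    nlinarith
  have h6 : e = 1 ∨ e = -1 := by omega
  rcases h6 with h6 | h6
  · left
    rw [h6, Int.cast_one] at hd
    refine ⟨hd, ?_⟩
    rw [h6] at h3
    have : (b0 : ℤ) = N - 1 := by omega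
    rw [e0]
    exact_mod_cast congrArg (Int.cast : ℤ → K) this
  · right
    rw [h6] at hd
    refine ⟨by rw [hd]; push_cast; ring, ?_⟩
    rw [h6] at h3
    have : b0 = 0 := by omega
    rw [e0, this, Nat.cast_zero]

theorem upper_bound {F : K[X]} {δ : K} (hδ : δ ≠ 0) {P : K × K} {N : ℕ}
    (hP : ∀ k : ℕ, ∃ a b : ℕ, a < N ∧ b < N ∧ (henon F δ)^[k] P = ((a : K), (b : K))) :
    (δ ≠ 1 → 1 < Function.minimalPeriod (henon F δ) P →
      Function.minimalPeriod (henon F δ) P + N ≤ N ^ 2) ∧
    (4 < Function.minimalPeriod (henon F δ) P →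
      2 * Function.minimalPeriod (henon F δ) P + N ≤ 2 * N ^ 2) := by
  classical
  set f := henon F δ with hf
  have hc := card_missing hP
  have hN : 1 < Function.minimalPeriod f P → 2 ≤ N := by
    intro h
    by_contra h'
    have : N = 0 ∨ N = 1 := by omega
    rcases this with rfl | rfl <;> simp at hc <;> omega
  have hrow : ∀ y : ℕ, y < N → (∀ x : ℕ, (x, y) ∉ missing f P N) →
      ∀ x < N, ∃ k : ℕ, f^[k] P = ((x : K), (y : K)) := by
    intro y hy h x hx
    by_contra hk
    apply h x
    unfold missing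
    rw [Finset.mem_filter, Finset.mem_product, Finset.mem_range, Finset.mem_range]
    exact ⟨⟨hx, hy⟩, hk⟩
  have hmp : ∀ j : ℕ, 0 < j → 0 < Function.minimalPeriod f P → ∀ Q : K × K,
      (∃ k : ℕ, f^[k] P = Q) → f^[j] Q = Q → Function.minimalPeriod f P ≤ j := by
    intro j hj hpos Q hQ hjQ
    obtain ⟨k, rfl⟩ := hQ
    have h1 : P ∈ Function.periodicPts f := Function.minimalPeriod_pos_iff_mem_periodicPts.1 hpos
    rw [← Function.minimalPeriod_apply_iterate h1 k]
    exact Function.IsPeriodicPt.minimalPeriod_le hj hjQ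
  constructor
  · intro h1 h2
    have hN2 := hN h2
    have hmiss : ∀ y < N, ∃ x : ℕ, (x, y) ∈ missing f P N := by
      intro y hy
      by_contra h
      push Not at h
      have h3 := hrow y hy h
      rcases full_row hδ hN2 hP h3 with ⟨h4, -⟩ | ⟨h4, h5⟩
      · exact h1 h4
      · have h6 : f^[1] ((y : K), (y : K)) = ((y : K), (y : K)) := by
          simp only [Function.iterate_one, hf, henon, h4, h5]
          rw [Prod.mk.injEq]
          exact ⟨rfl, by ring⟩
        have := hmp 1 one_pos (by omega) _ (h3 y hy) h6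
        omega
    choose! x hx using hmiss
    have h3 : N ≤ (missing f P N).card := by
      have : (Finset.range N).card = N := Finset.card_range N
      calc N = (Finset.range N).card := this.symm
        _ ≤ (missing f P N).card := Finset.card_le_card_of_injOn (fun y => (x y, y))
            (fun y hy => hx y (Finset.mem_range.1 hy))
            (fun y _ z _ h => (Prod.mk.inj h).2)
    omega
  · intro h2
    have hN2 := hN (by omega)
    have hmiss : ∀ y < N, ∃ x y' : ℕ, (y' = y ∨ y' + y = N - 1) ∧ (x, y') ∈ missing f P N := by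
      intro y hy
      by_contra h
      push Not at h
      have h3 := hrow y hy (fun x => h x y (Or.inl rfl))
      have h3' := hrow (N - 1 - y) (by omega) (fun x => h x (N - 1 - y) (Or.inr (by omega)))
      have hc : ((N - 1 - y : ℕ) : K) = (N : K) - 1 - y := by
        rw [Nat.cast_sub (by omega), Nat.cast_sub (by omega), Nat.cast_one]
      rcases full_row hδ hN2 hP h3 with ⟨h4, h5⟩ | ⟨h4, h5⟩
      · rcases full_row hδ hN2 hP h3' with ⟨-, h5'⟩ | ⟨h6, -⟩
        · rw [hc] at h5'
          have h6 : f^[4] ((y : K), (y : K)) = ((y : K), (y : K)) := by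
            have a1 : f ((y : K), (y : K)) = ((y : K), (N : K) - 1 - y) := by
              simp only [hf, henon, h4, h5, one_mul]
            have a2 : f ((y : K), (N : K) - 1 - y) = ((N : K) - 1 - y, (N : K) - 1 - y) := by
              simp only [hf, henon, h4, h5', one_mul]
            have a3 : f ((N : K) - 1 - y, (N : K) - 1 - y) = ((N : K) - 1 - y, (y : K)) := by
              simp only [hf, henon, h4, h5', one_mul]
              rw [Prod.mk.injEq]
              exact ⟨rfl, by ring⟩
            have a4 : f ((N : K) - 1 - y, (y : K)) = ((y : K), (y : K)) := by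
              simp only [hf, henon, h4, h5, one_mul]
              rw [Prod.mk.injEq]
              exact ⟨rfl, by ring⟩
            rw [show f^[4] ((y : K), (y : K)) = f (f (f (f ((y : K), (y : K))))) from rfl,
              a1, a2, a3, a4]
          have := hmp 4 (by norm_num) (by omega) _ (h3 y hy) h6
          omega
        · rw [h4] at h6
          norm_num at h6
      · have h6 : f^[1] ((y : K), (y : K)) = ((y : K), (y : K)) := by
          simp only [Function.iterate_one, hf, henon, h4, h5]
          rw [Prod.mk.injEq]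
          exact ⟨rfl, by ring⟩
        have := hmp 1 one_pos (by omega) _ (h3 y hy) h6
        omega
    have h3 : N ≤ 2 * (missing f P N).card := by
      have hsub : Finset.range N ⊆ (missing f P N).image (fun z => z.2) ∪
          (missing f P N).image (fun z => N - 1 - z.2) := by
        intro y hy
        rw [Finset.mem_range] at hy
        obtain ⟨x, y', h4, h5⟩ := hmiss y hy
        rw [Finset.mem_union, Finset.mem_image, Finset.mem_image]
        rcases h4 with h4 | h4
        · left; exact ⟨_, h5, h4⟩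
        · right; exact ⟨_, h5, by dsimp only; omega⟩
      have h4 := Finset.card_le_card hsub
      rw [Finset.card_range] at h4
      have h5 := Finset.card_union_le ((missing f P N).image (fun z => z.2))
        ((missing f P N).image (fun z => N - 1 - z.2))
      have h6 := Finset.card_image_le (s := missing f P N) (f := fun z => z.2)
      have h7 := Finset.card_image_le (s := missing f P N) (f := fun z => N - 1 - z.2)
      omega
    omega

end upper

/-! ### The main theorem -/

section main
variable {K : Type*} [Field K] [CharZero K]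

/-- interpolation at fewer points, with a polynomial of exact degree `d` -/
lemma exists_poly_lt (N d : ℕ) (hd : N ≤ d) (v : ℕ → ℤ) :
    ∃ F : K[X], F.natDegree = d ∧ ∀ n < N, F.eval (n : K) = (v n : K) := by
  classical
  set I : K[X] := Lagrange.interpolate (Finset.range N) (fun n : ℕ => (n : K))
    (fun n => (v n : K)) with hI
  set M : K[X] := Lagrange.nodal (Finset.range N) (fun n : ℕ => (n : K)) * X ^ (d - N) with hM
  have hinj : Set.InjOn (fun n : ℕ => (n : K)) (Finset.range N : Set ℕ) :=
    fun x _ y _ h => Nat.cast_injective h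
  have hmonic : (Lagrange.nodal (Finset.range N) (fun n : ℕ => (n : K))).Monic :=
    Lagrange.nodal_monic
  have hMd : M.natDegree = d := by
    rw [hM, hmonic.natDegree_mul (monic_X_pow _), Lagrange.natDegree_nodal, natDegree_X_pow,
      Finset.card_range]
    omega
  have hMm : M.Monic := hmonic.mul (monic_X_pow _)
  have hId : I.degree < M.degree := by
    have h1 : I.degree < (Finset.range N).card := Lagrange.degree_interpolate_lt _ hinj
    rw [degree_eq_natDegree hMm.ne_zero, hMd]
    rw [Finset.card_range] at h1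
    exact lt_of_lt_of_le h1 (by exact_mod_cast hd)
  refine ⟨I + M, ?_, fun n hn => ?_⟩
  · rw [natDegree_eq_of_degree_eq (degree_add_eq_right_of_degree_lt hId), hMd]
  · rw [eval_add, hI, Lagrange.eval_interpolate_at_node _ hinj (Finset.mem_range.2 hn), hM,
      eval_mul, Lagrange.eval_nodal_at_node (Finset.mem_range.2 hn)]
    simp

/-- the values `s 0, ..., s (N - 1)` are taken by a polynomial of exact degree `d ≥ N - 1` -/
lemma exists_poly_all {N d : ℕ} (hN : 3 ≤ N) (hd : N ≤ d + 1) (s : ℤ → ℤ)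
    (h1 : ∀ k : ℕ, k + 1 < N → (k % 2 = 0 → s k ≤ -1) ∧ (k % 2 = 1 → 1 ≤ s k))
    (h2 : -1 ≤ s ((N - 1 : ℕ) : ℤ) ∧ s ((N - 1 : ℕ) : ℤ) ≤ 1) :
    ∃ F : K[X], F.natDegree = d ∧
      ∀ y : ℤ, 0 ≤ y → y < (N : ℤ) → F.eval (y : K) = (s y : K) := by
  have key : ∃ F : K[X], F.natDegree = d ∧ ∀ n < N, F.eval (n : K) = (s (n : ℤ) : K) := by
    rcases Nat.lt_or_ge d N with h | h
    · have hdN : d + 1 = N := by omega
      obtain ⟨F, hF, hF'⟩ := exists_poly (K := K) d (by omega) (fun n => s (n : ℤ)) (by
        intro k hk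
        obtain ⟨h3, h4⟩ := h1 k (by omega)
        rcases Nat.even_or_odd k with hk' | hk'
        · rw [hk'.neg_one_pow, one_mul]
          exact h3 (Nat.even_iff.1 hk')
        · rw [hk'.neg_one_pow]
          have := h4 (Nat.odd_iff.1 hk')
          omega) (by
        have e : N - 1 = d := by omega
        rw [e] at h2
        rcases Nat.even_or_odd d with hk' | hk'
        · rw [hk'.neg_one_pow]; omega
        · rw [hk'.neg_one_pow]; omega)
      exact ⟨F, hF, fun n hn => hF' n (by omega)⟩
    · exact exists_poly_lt N d h (fun n => s (n : ℤ))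
  obtain ⟨F, hF, hF'⟩ := key
  refine ⟨F, hF, fun y h0 hy => ?_⟩
  obtain ⟨n, rfl⟩ := Int.eq_ofNat_of_zero_le h0
  have := hF' n (by exact_mod_cast hy)
  rw [Int.cast_natCast]
  exact this

theorem exists_cycle (d N : ℕ) (hN : 6 ≤ N) (hd : N ≤ d + 1) :
    ∃ (F : K[X]) (P : K × K), F.natDegree = d ∧
      Function.minimalPeriod (henon F (-1)) P + (4 * N + N % 2) = N ^ 2 ∧
      ∀ k : ℕ, ∃ a b : ℕ, a < N ∧ b < N ∧ (henon F (-1))^[k] P = ((a : K), (b : K)) := by
  rcases Nat.mod_two_eq_zero_or_one N with hp | hp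
  · obtain ⟨q, rfl⟩ : ∃ q, N = 2 * (q + 3) := ⟨N / 2 - 3, by omega⟩
    set m : ℤ := (q : ℤ) + 3 with hm
    have hs := bulkE (m := m) (by omega)
    obtain ⟨F, hF, hF'⟩ := exists_poly_all (K := K) (N := 2 * (q + 3)) (d := d) (by omega) hd
      (sE m) (by
        intro k hk
        constructor
        · intro h; unfold sE base; split_ifs <;> omega
        · intro h; unfold sE base; split_ifs <;> omega) (by
        have e : ((2 * (q + 3) - 1 : ℕ) : ℤ) = 2 * m - 1 := by omega
        rw [e, sE_top]; omega)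
    have hF2 : ∀ y : ℤ, 0 ≤ y → y < 2 * m → F.eval (y : K) = (sE m y : K) :=
      fun y h0 hy => hF' y h0 (by push_cast; omega)
    obtain ⟨h1, h2⟩ := period_of_path hF2 (by omega) hs.z2 (cycleE q hm)
    refine ⟨F, c K (2, 2), hF, ?_, ?_⟩
    · rw [h1, hp]; ring
    · intro k
      obtain ⟨a, b, ha, hb, hab⟩ := h2 k
      exact ⟨a, b, by omega, by omega, hab⟩
  · obtain ⟨q, rfl⟩ : ∃ q, N = 2 * (q + 3) + 1 := ⟨N / 2 - 3, by omega⟩
    set m : ℤ := (q : ℤ) + 3 with hm
    have hs := bulkO (m := m) (by omega)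
    obtain ⟨F, hF, hF'⟩ := exists_poly_all (K := K) (N := 2 * (q + 3) + 1) (d := d) (by omega) hd
      (sO m) (by
        intro k hk
        constructor
        · intro h; unfold sO base; split_ifs <;> omega
        · intro h; unfold sO base; split_ifs <;> omega) (by
        have e : ((2 * (q + 3) + 1 - 1 : ℕ) : ℤ) = 2 * m := by omega
        rw [e, sO_top']; omega)
    have hF2 : ∀ y : ℤ, 0 ≤ y → y < 2 * m + 1 → F.eval (y : K) = (sO m y : K) :=
      fun y h0 hy => hF' y h0 (by push_cast; omega)
    obtain ⟨h1, h2⟩ := period_of_path hF2 (by omega) hs.z2 (cycleO q hm)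
    refine ⟨F, c K (2, 2), hF, ?_, ?_⟩
    · rw [h1, hp]; ring
    · intro k
      obtain ⟨a, b, ha, hb, hab⟩ := h2 k
      exact ⟨a, b, by omega, by omega, hab⟩

end main

/-- Let `K` be a field of characteristic zero, for instance a number field.
(1) For `6 ≤ N ≤ d + 1` there is a generalized Hénon map `f(x, y) = (y, F(y) + x)` of degree `d`
over `K` with a cycle of exact length `N² - 4N` (`N` even) or `N² - 4N - 1` (`N` odd) all points of
which are in the grid `{0, ..., N - 1}²`. For `N = d + 1` the length is `d² - 2d - 3` (`d` odd) or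
`d² - 2d - 4` (`d` even).
(2) Conversely, let `f(x, y) = (y, F(y) - δ x)`, `F` any polynomial, `δ ≠ 0`, have a cycle of length
`ℓ` in `{0, ..., N - 1}²`. If `δ ≠ 1` and `ℓ > 1` then `ℓ ≤ N² - N`; if `ℓ > 4` then
`ℓ ≤ N² - N / 2`. -/
theorem result (K : Type*) [Field K] [CharZero K] :
    (∀ d N : ℕ, 6 ≤ N → N ≤ d + 1 → ∃ (F : K[X]) (P : K × K), F.natDegree = d ∧
      Function.minimalPeriod (henon F (-1)) P + (4 * N + N % 2) = N ^ 2 ∧
      ∀ k : ℕ, ∃ a b : ℕ, a < N ∧ b < N ∧ (henon F (-1))^[k] P = ((a : K), (b : K))) ∧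
    (∀ (F : K[X]) (δ : K) (P : K × K) (N : ℕ), δ ≠ 0 →
      (∀ k : ℕ, ∃ a b : ℕ, a < N ∧ b < N ∧ (henon F δ)^[k] P = ((a : K), (b : K))) →
      (δ ≠ 1 → 1 < Function.minimalPeriod (henon F δ) P →
        Function.minimalPeriod (henon F δ) P + N ≤ N ^ 2) ∧
      (4 < Function.minimalPeriod (henon F δ) P →
        2 * Function.minimalPeriod (henon F δ) P + N ≤ 2 * N ^ 2)) :=
  ⟨fun d N hN hd => exists_cycle d N hN hd, fun _ _ _ _ hδ hP => upper_bound hδ hP⟩

end Pool.Agent.Results.MP_0e6b5f_nt.GridCycles
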