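import Pool.Agent.H912.DY.P8

/-!
# Uniform boundedness of the periodic points of Hénon maps over infinite fields

For a number field `K` and `f ≥ 1` let `K[f]` be the field of all `α` in the algebraic closure of `K`
with `σ^f(α) = α` for all automorphisms `σ` over `K`: the union of all finite Galois extensions of `K`
whose group has exponent dividing `f`. It has infinite degree over `K` (for `f ≥ 2`), and contains all
elements of degree at most `B` over `K` if `f` is divisible by `1, ..., B`.

We prove, for generalized Hénon maps `h(x, y) = (y, F(y) - δ x)` of degree `d ≥ 2`: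

1. Uniform boundedness over the infinite fields `K[f]` for the maps with at most `s` primes of bad
   reduction: the number of periodic points in `K[f]²`, of all periods, is at most
   `C(D, d, f, s, m)`, where `[K : ℚ] ≤ D`, and where good reduction at a prime means: in suitable
   coordinates over an extension of `K` of degree at most `m`.
2. Uniform boundedness over `K[f]` for all Hénon maps but a proportion `ε`.

At a prime `v` of good reduction the residue fields of all finite extensions `N ⊂ K[f]` of `K` are
bounded, while the (wild) ramification is not used: the period of every periodic point in `N²` divides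
`E p^t`, where `p` is the residue characteristic, and `E` depends only on the bound for the residue
fields. Two primes of different residue characteristics show that the period divides `E`, and there
are at most `d^E` points with this property.
-/

namespace Pool.Agent.Results.MP_0e6b5f_nt.InfiniteFields

open Polynomial NumberField Filter Topology IsDedekindDomain IsLocalRing

/-- The map `(x, y) ↦ (y, F(y) - δ x)` of the plane over the field `L`. -/
def henon {L : Type} [Field L] (F : L[X]) (δ : L) (P : L × L) : L × L :=
  (P.2, F.eval P.2 - δ * P.1)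

/-- Its periodic points, of all periods, in the plane over `L`. -/
def periodic {L : Type} [Field L] (F : L[X]) (δ : L) : Set (L × L) :=
  {P | ∃ n : ℕ, 0 < n ∧ (henon F δ)^[n] P = P}

/-- The field `K[f]`: all `α` in the algebraic closure of `K` which are fixed by the `f`-th powers of
all automorphisms over `K`. -/
def expClosure (K : Type) [Field K] (f : ℕ) : IntermediateField K (AlgebraicClosure K) where
  carrier := {α | ∀ σ : AlgebraicClosure K ≃ₐ[K] AlgebraicClosure K, (σ ^ f) α = α}
  mul_mem' {a b} ha hb σ := by rw [map_mul, ha σ, hb σ]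
  add_mem' {a b} ha hb σ := by rw [map_add, ha σ, hb σ]
  algebraMap_mem' a σ := AlgEquiv.commutes _ a
  inv_mem' a ha σ := by rw [map_inv₀, ha σ]

/-- The periodic points of `(x, y) ↦ (y, F(y) - δ x)` in the plane over the infinite field `K[f]`. -/
def periodicExp {K : Type} [Field K] (F : K[X]) (δ : K) (f : ℕ) :
    Set (expClosure K f × expClosure K f) :=
  periodic (F.map (algebraMap K (expClosure K f))) (algebraMap K (expClosure K f) δ)

/-- The polynomial `G` such that `(x', y') ↦ (y', G(y') - δ x')` is the map
`(x, y) ↦ (y, F(y) - δ x)` in the coordinates given by `x = a x' + b`, `y = a y' + b`. -/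
noncomputable def chart {L : Type} [Field L] (a b : L) (F : L[X]) (δ : L) : L[X] :=
  C a⁻¹ * (F.comp (C a * X + C b) - C ((1 + δ) * b))

/-- Good reduction at the valuation `w` in suitable coordinates over `L`: the map becomes
`(x', y') ↦ (y', G(y') - δ x')`, where the coefficients of `G` are integral and the leading
coefficient and `δ` are units. -/
def Good {L : Type} [Field L] {Γ : Type*} [LinearOrderedCommGroupWithZero Γ] (w : Valuation L Γ)
    (F : L[X]) (δ : L) : Prop :=
  ∃ a b : L, a ≠ 0 ∧ (∀ i, w ((chart a b F δ).coeff i) ≤ 1) ∧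
    w (chart a b F δ).leadingCoeff = 1 ∧ w δ = 1

/-- Good reduction over the number field `L` at a prime `w` above the prime `v` of `K`, in suitable
coordinates over `L`. -/
def GoodOver {K : Type} [Field K] [NumberField K] (v : HeightOneSpectrum (𝓞 K)) (F : K[X])
    (δ : K) (L : Type) [Field L] [NumberField L] [Algebra K L] : Prop :=
  ∃ w : HeightOneSpectrum (𝓞 L), w.asIdeal.LiesOver v.asIdeal ∧
    Good (w.valuation L) (F.map (algebraMap K L)) (algebraMap K L δ)

/-- Good reduction at the prime `v` of `K` after an extension `L` of degree at most `m`: there are a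
number field `L` over `K` of degree at most `m` and a prime `w` of `L` above `v` such that the map has
good reduction at `w` in suitable coordinates over `L`. -/
def PGood (m : ℕ) {K : Type} [Field K] [NumberField K] (v : HeightOneSpectrum (𝓞 K)) (F : K[X])
    (δ : K) : Prop :=
  ∃ (L : Type) (_ : Field L) (_ : NumberField L) (_ : Algebra K L),
    Module.finrank K L ≤ m ∧ GoodOver v F δ L

/-- The primes of bad reduction: those where the map does not have good reduction, even after an
extension of degree at most `m`. -/
def badPrimes (m : ℕ) {K : Type} [Field K] [NumberField K] (F : K[X]) (δ : K) :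
    Set (HeightOneSpectrum (𝓞 K)) :=
  {v | ¬ PGood m v F δ}

/-- The coefficient number `i`, a quotient of two integers of `K`. -/
noncomputable def coef {K : Type} [Field K] {d : ℕ} (c : Fin (d + 2) × Fin 2 → 𝓞 K)
    (i : Fin (d + 2)) : K :=
  algebraMap (𝓞 K) K (c (i, 0)) / algebraMap (𝓞 K) K (c (i, 1))

/-- The polynomial `F = a_0 + a_1 y + ... + a_d y^d`, where `a_i` is the coefficient number `i`. -/
noncomputable def poly {K : Type} [Field K] {d : ℕ} (c : Fin (d + 2) × Fin 2 → 𝓞 K) : K[X] :=
  ∑ i : Fin (d + 1), C (coef c i.castSucc) * X ^ (i : ℕ)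

/-- The number `δ`: the last coefficient. -/
noncomputable def delta {K : Type} [Field K] {d : ℕ} (c : Fin (d + 2) × Fin 2 → 𝓞 K) : K :=
  coef c (Fin.last (d + 1))

/-- The denominators are not zero, `a_d ≠ 0` and `δ ≠ 0`: the data define a generalized Hénon map
of degree `d` over `K`. -/
def IsHenon {K : Type} [Field K] {d : ℕ} (c : Fin (d + 2) × Fin 2 → 𝓞 K) : Prop :=
  (∀ i, c (i, 1) ≠ 0) ∧ coef c (Fin.last d).castSucc ≠ 0 ∧ delta c ≠ 0

/-- All numerators and denominators have coordinates at most `X` in absolute value with respect to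
the integral basis `ω`. -/
def box {K : Type} [Field K] {J : Type} (ω : Module.Basis J ℤ (𝓞 K)) (d X : ℕ) :
    Set (Fin (d + 2) × Fin 2 → 𝓞 K) :=
  {c | ∀ k j, |ω.repr (c k) j| ≤ (X : ℤ)}

/-- The data in the box of size `X` which do not define a Hénon map of degree `d` with at most `C`
periodic points in the plane over `K[f]`. -/
def exceptional {K : Type} [Field K] {J : Type} (ω : Module.Basis J ℤ (𝓞 K)) (d f C X : ℕ) :
    Set (Fin (d + 2) × Fin 2 → 𝓞 K) :=
  {c | c ∈ box ω d X ∧ ¬ (IsHenon c ∧ (periodicExp (poly c) (delta c) f).encard ≤ C)}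

/-- **Uniform boundedness for the maps with few primes of bad reduction.** For all `D`, `d ≥ 2`,
`f ≥ 1`, `s`, `m` there is `C` such that for every number field `K` of degree at most `D` and every
generalized Hénon map of degree `d` over `K` which has good reduction after an extension of degree at
most `m` at all but at most `s` primes of `K`, there are at most `C` periodic points in the plane over
the infinite field `K[f]`. -/
def FewBadPrimes : Prop :=
  ∀ D d f s m : ℕ, 2 ≤ d → 1 ≤ f → ∃ C : ℕ, ∀ (K : Type) [Field K] [NumberField K],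
    Module.finrank ℚ K ≤ D → ∀ (F : K[X]) (δ : K), F.natDegree = d → δ ≠ 0 →
      (badPrimes m F δ).encard ≤ s →
      (periodicExp F δ f).encard ≤ C

/-- **Uniform boundedness for almost all maps.** For all `D`, `d ≥ 2`, `f ≥ 1` and `ε > 0` there is `C`
such that for every number field `K` of degree at most `D` and every integral basis, in all boxes of
size at least `C`, all Hénon maps of degree `d` but a proportion `ε` have at most `C` periodic points
over `K[f]`. -/
def AlmostAll : Prop :=
  ∀ (D d f : ℕ) (ε : ℝ), 2 ≤ d → 1 ≤ f → 0 < ε → ∃ C : ℕ, ∀ (K : Type) [Field K] [NumberField K],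
    Module.finrank ℚ K ≤ D → ∀ (J : Type) [Fintype J] (ω : Module.Basis J ℤ (𝓞 K)) (X : ℕ),
      C ≤ X → ((exceptional ω d f C X).ncard : ℝ) ≤ ε * (box ω d X).ncard

/-- The automorphisms of the field `E` over `K` satisfy `σ ^ f = 1`. -/
def HasExponent (K : Type) [Field K] (E : Type) [Field E] [Algebra K E] (f : ℕ) : Prop :=
  ∀ σ : E ≃ₐ[K] E, σ ^ f = 1

/-- `K[f]` contains all normal extensions of `K` whose automorphisms satisfy `σ ^ f = 1`. -/
def ContainsNormal : Prop :=
  ∀ (K : Type) [Field K] (f : ℕ) (E : IntermediateField K (AlgebraicClosure K)), Normal K E →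
    HasExponent K E f → E ≤ expClosure K f

/-- `K[f]` contains the elements of degree at most `B` over `K` if `1, ..., B` divide `f`. -/
def ContainsDegree : Prop :=
  ∀ (K : Type) [Field K] (f B : ℕ), (∀ j, 1 ≤ j → j ≤ B → j ∣ f) →
    ∀ (α : AlgebraicClosure K) (P : K[X]), P ≠ 0 → P.natDegree ≤ B → aeval α P = 0 →
      α ∈ expClosure K f

lemma coeff_poly {K : Type} [Field K] {d : ℕ} (c : Fin (d + 2) × Fin 2 → 𝓞 K) (j : Fin (d + 1)) :
    (poly c).coeff j = coef c j.castSucc := by
  unfold poly
  rw [finsetSum_coeff]
  simp only [coeff_C_mul, coeff_X_pow]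
  rw [Finset.sum_eq_single j]
  · rw [if_pos rfl, mul_one]
  · intro i _ hij
    rw [if_neg (fun h => hij (Fin.ext h.symm)), mul_zero]
  · exact fun h => absurd (Finset.mem_univ _) h

lemma coeff_poly_of_lt {K : Type} [Field K] {d : ℕ} (c : Fin (d + 2) × Fin 2 → 𝓞 K) {j : ℕ}
    (hj : d < j) : (poly c).coeff j = 0 := by
  unfold poly
  rw [finsetSum_coeff]
  refine Finset.sum_eq_zero fun i _ => ?_
  rw [coeff_C_mul, coeff_X_pow, if_neg, mul_zero]
  intro h
  have := i.2
  omega

/-- the periodic points over `K[f]` as points over the algebraic closure -/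
lemma mem_perExp {K : Type} [Field K] (F : K[X]) (δ : K) (f : ℕ)
    {P : expClosure K f × expClosure K f} (hP : P ∈ periodicExp F δ f) :
    ((P.1 : AlgebraicClosure K), (P.2 : AlgebraicClosure K)) ∈
      Pool.Agent.H912.DY.perExp F δ f := by
  obtain ⟨n, hn, hPn⟩ := hP
  refine ⟨⟨n, hn, ?_⟩, P.1.2, P.2.2⟩
  have h1 := congrArg (Prod.map (algebraMap (expClosure K f) (AlgebraicClosure K))
    (algebraMap (expClosure K f) (AlgebraicClosure K))) hPn
  have h2 := Pool.Agent.H912.DY.henon_iterate (algebraMap (expClosure K f) (AlgebraicClosure K))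
    (F.map (algebraMap K (expClosure K f))) (algebraMap K (expClosure K f) δ) n P
  have h3 : (F.map (algebraMap K (expClosure K f))).map
      (algebraMap (expClosure K f) (AlgebraicClosure K)) =
      F.map (algebraMap K (AlgebraicClosure K)) := by
    rw [Polynomial.map_map]
    rfl
  rw [h3] at h2
  exact h2.symm.trans h1

lemma encard_le {K : Type} [Field K] (F : K[X]) (δ : K) (f : ℕ) :
    (periodicExp F δ f).encard ≤ (Pool.Agent.H912.DY.perExp F δ f).encard := by
  let g : expClosure K f × expClosure K f → AlgebraicClosure K × AlgebraicClosure K :=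
    fun P => ((P.1 : AlgebraicClosure K), (P.2 : AlgebraicClosure K))
  have hg : Function.Injective g := by
    intro P Q h
    have h1 := Prod.ext_iff.1 h
    exact Prod.ext (Subtype.ext h1.1) (Subtype.ext h1.2)
  rw [← hg.encard_image]
  refine Set.encard_le_encard ?_
  rintro _ ⟨P, hP, rfl⟩
  exact mem_perExp F δ f hP

theorem fewBadPrimes : FewBadPrimes := by
  intro D d f s m hd hf
  obtain ⟨C, hC⟩ := Pool.Agent.H912.DY.few_bad D d f s m hd hf
  refine ⟨C, fun K _ _ hD F δ hF _ hs => ?_⟩
  have hsub : {v : HeightOneSpectrum (𝓞 K) | ¬ Pool.Agent.H912.DY.PGood m v F δ} ⊆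
      badPrimes m F δ := by
    rintro v hv ⟨L, i1, i2, i3, h1, w, h2, h3⟩
    exact hv ⟨L, i1, i2, i3, w, h1, h2, h3⟩
  exact (encard_le F δ f).trans (hC K hD F δ hF ((Set.encard_le_encard hsub).trans hs))

/-- the valuations of the coefficients at a prime where all data but one are units -/
lemma val_coef {K : Type} [Field K] [NumberField K] {d : ℕ} {c : Fin (d + 2) × Fin 2 → 𝓞 K}
    {v : HeightOneSpectrum (𝓞 K)} {i : Fin (d + 2)}
    (h : ∀ l, c (i, l) ∉ v.asIdeal) : v.valuation K (coef c i) = 1 := by
  unfold coef
  rw [map_div₀, Pool.Agent.H912.DY.val_unit v (h 0), Pool.Agent.H912.DY.val_unit v (h 1), div_one]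

lemma natDegree_poly {K : Type} [Field K] {d : ℕ} {c : Fin (d + 2) × Fin 2 → 𝓞 K}
    (h : coef c (Fin.last d).castSucc ≠ 0) : (poly c).natDegree = d := by
  refine le_antisymm ?_ ?_
  · rw [natDegree_le_iff_coeff_eq_zero]
    exact fun j hj => coeff_poly_of_lt c hj
  · refine le_natDegree_of_ne_zero ?_
    have := coeff_poly c (Fin.last d)
    rw [Fin.val_last] at this
    rw [this]
    exact h

/-- two primes where all data are units -/
lemma bound_of_units {K : Type} [Field K] [NumberField K] {d f q : ℕ} (hd : 2 ≤ d) (hf : 1 ≤ f)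
    {c : Fin (d + 2) × Fin 2 → 𝓞 K} (h : Pool.Agent.H912.DY.TwoUnits q c) :
    IsHenon c ∧ (periodicExp (poly c) (delta c) f).encard ≤
      ((d ^ Pool.Agent.H912.DY.EE (q ^ f) : ℕ) : ℕ∞) := by
  obtain ⟨v, v', p, p', hp, hp', hpp, hv, hv', hq, hq', hu, hu'⟩ := h
  have hne : ∀ i, coef c i ≠ 0 := by
    intro i h0
    have h1 := val_coef (v := v) (i := i) (fun l => hu (i, l))
    rw [h0, map_zero] at h1
    exact zero_ne_one h1
  have hdeg : (poly c).natDegree = d := natDegree_poly (hne _)
  have hgood : ∀ v : HeightOneSpectrum (𝓞 K), (∀ k, c k ∉ v.asIdeal) →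
      Pool.Agent.H912.DY.GoodAt v (poly c) (delta c) := by
    intro v hu
    refine ⟨fun i => ?_, ?_, val_coef fun l => hu (_, l)⟩
    · by_cases hid : i ≤ d
      · have := coeff_poly c ⟨i, by omega⟩
        simp only at this
        rw [this]
        exact (val_coef fun l => hu (_, l)).le
      · rw [coeff_poly_of_lt c (by omega), map_zero]
        exact zero_le
    · rw [leadingCoeff, hdeg]
      have := coeff_poly c (Fin.last d)
      rw [Fin.val_last] at this
      rw [this]
      exact val_coef fun l => hu (_, l)
  refine ⟨⟨fun i h0 => hu (i, 1) ?_, hne _, hne _⟩, (encard_le _ _ _).trans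
    (Pool.Agent.H912.DY.card_exp hf v v' hp hp' hpp hv hv' hq hq' hd hdeg (hgood v hu)
      (hgood v' hu'))⟩
  rw [h0]
  exact Ideal.zero_mem _

theorem almostAll : AlmostAll := by
  intro D d f ε hd hf hε
  obtain ⟨q, hq⟩ := Pool.Agent.H912.DY.count_two (Fin (d + 2) × Fin 2) D hε
  refine ⟨max q (d ^ Pool.Agent.H912.DY.EE (q ^ f)), fun K _ _ hD J _ ω X hX => ?_⟩
  refine le_trans ?_ (hq K hD J ω X ((le_max_left _ _).trans hX))
  have hsub : {c | c ∈ box ω d X ∧ ¬ (IsHenon c ∧ (periodicExp (poly c) (delta c) f).encard ≤
      ((max q (d ^ Pool.Agent.H912.DY.EE (q ^ f)) : ℕ) : ℕ∞))} ⊆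
      {a | a ∈ Pool.Agent.H912.DY.box ω (Fin (d + 2) × Fin 2) X ∧
        ¬ Pool.Agent.H912.DY.TwoUnits q a} := by
    rintro c ⟨hc, hc'⟩
    refine ⟨hc, fun h => hc' ?_⟩
    obtain ⟨h1, h2⟩ := bound_of_units hd hf h
    exact ⟨h1, h2.trans (by exact_mod_cast le_max_right _ _)⟩
  exact_mod_cast Set.ncard_le_ncard hsub
    ((Pool.Agent.H912.DY.finite_box ω X).subset fun a ha => ha.1)

theorem containsNormal : ContainsNormal :=
  fun _ _ _ E _ hσ => Pool.Agent.H912.AE.le_expField E hσ

theorem containsDegree : ContainsDegree := by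
  intro K _ f B hf α P hP hPd hα
  have h1 := Pool.Agent.H912.AE.mem_expField_mul (K := K) (f := 1) (g := f) (d := B) hf (α := α)
    (P := P.map (algebraMap K (Pool.Agent.H912.AE.expField K 1)))
    ((Polynomial.map_ne_zero_iff (algebraMap K _).injective).2 hP)
    (natDegree_map_le.trans hPd) (by
      rw [eval₂_map, ← IsScalarTower.algebraMap_eq, ← aeval_def]
      exact hα)
  rw [one_mul] at h1
  exact h1

/-- **Main theorem.** Uniform boundedness of the periodic points over the infinite fields `K[f]`

1. for all generalized Hénon maps with few primes of bad reduction,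
2. for all generalized Hénon maps but an arbitrarily small proportion.

3. `K[f]` contains all normal extensions `E` of `K` with `σ^f = 1` for all automorphisms `σ` of `E`
   over `K`, and the elements of degree at most `B` over `K` if `1, ..., B` divide `f`. -/
theorem result : FewBadPrimes ∧ AlmostAll ∧ ContainsNormal ∧ ContainsDegree :=
  ⟨fewBadPrimes, almostAll, containsNormal, containsDegree⟩

end Pool.Agent.Results.MP_0e6b5f_nt.InfiniteFields
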